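import Mathlib

/-!
# Complex hyperbolic triangle groups

Definitions for Schwartz' conjecture on discrete, infinite, non-faithful complex hyperbolic
triangle groups.
-/

set_option autoImplicit false

open Matrix Complex

namespace Pool.Agent.X186.TG

/-- The Hermitian form of signature `(2, 1)` on `ℂ³`,
`⟨x, y⟩ = x₀ ȳ₀ + x₁ ȳ₁ - x₂ ȳ₂`. The complex hyperbolic plane is the set of complex lines
`ℂ v` with `⟨v, v⟩ < 0`; in the affine coordinates `(v₀ / v₂, v₁ / v₂)` it is the unit ball. -/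
noncomputable def herm (x y : Fin 3 → ℂ) : ℂ :=
  x 0 * star (y 0) + x 1 * star (y 1) - x 2 * star (y 2)

/-- The unitary group `U(2, 1)` of the form `herm`. -/
noncomputable def U21 : Subgroup (GL (Fin 3) ℂ) where
  carrier := {g | ∀ x y, herm (g.1 *ᵥ x) (g.1 *ᵥ y) = herm x y}
  mul_mem' := by
    intro a b ha hb x y
    simp only [Set.mem_setOf_eq] at ha hb
    rw [Units.val_mul, ← mulVec_mulVec, ← mulVec_mulVec, ha, hb]
  one_mem' := by
    intro x y
    simp
  inv_mem' := by
    intro a ha x y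
    simp only [Set.mem_setOf_eq] at ha
    have h := ha ((a⁻¹).1 *ᵥ x) ((a⁻¹).1 *ᵥ y)
    rw [mulVec_mulVec, mulVec_mulVec, ← Units.val_mul, mul_inv_cancel, Units.val_one, one_mulVec,
      one_mulVec] at h
    exact h.symm

/-- The scalar matrices in `U(2, 1)`. -/
noncomputable def scalars : Subgroup U21 where
  carrier := {g | ∃ c : ℂ, ∀ x, g.1.1 *ᵥ x = c • x}
  mul_mem' := by
    rintro a b ⟨c, hc⟩ ⟨d, hd⟩
    refine ⟨c * d, fun x => ?_⟩
    rw [Subgroup.coe_mul, Units.val_mul, ← mulVec_mulVec, hd, mulVec_smul, hc, smul_smul, mul_comm]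
  one_mem' := ⟨1, fun x => by simp⟩
  inv_mem' := by
    rintro a ⟨c, hc⟩
    have h1 : ∀ x, c • ((a⁻¹).1.1 *ᵥ x) = x := by
      intro x
      rw [← hc, mulVec_mulVec, ← Units.val_mul, ← Subgroup.coe_mul, mul_inv_cancel, Subgroup.coe_one,
        Units.val_one, one_mulVec]
    have hc0 : c ≠ 0 := by
      rintro rfl
      have := congrFun (h1 1) 0
      simp at this
    refine ⟨c⁻¹, fun x => ?_⟩
    conv_rhs => rw [← h1 x, smul_smul, inv_mul_cancel₀ hc0, one_smul]

instance : scalars.Normal where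
  conj_mem := by
    rintro a ⟨c, hc⟩ g
    refine ⟨c, fun x => ?_⟩
    rw [Subgroup.coe_mul, Units.val_mul, ← mulVec_mulVec, Subgroup.coe_mul, Units.val_mul,
      ← mulVec_mulVec, hc, mulVec_smul, mulVec_mulVec, ← Units.val_mul, ← Subgroup.coe_mul,
      mul_inv_cancel, Subgroup.coe_one, Units.val_one, one_mulVec]

/-- The group `PU(2, 1)` of holomorphic isometries of the complex hyperbolic plane, with its
quotient topology. -/
abbrev PU21 : Type := U21 ⧸ scalars

/-- `g` is elliptic: it has a fixed point in the complex hyperbolic plane. -/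
def IsElliptic (g : PU21) : Prop :=
  ∃ A : U21, (A : PU21) = g ∧ ∃ v : Fin 3 → ℂ, (herm v v).re < 0 ∧ ∃ c : ℂ, A.1.1 *ᵥ v = c • v

/-- `g` is the complex reflection of order two in the complex line polar to the vector `e`, where
`⟨e, e⟩ = 1`: it is given by `x ↦ -x + 2 ⟨x, e⟩ e`. It fixes the points of the complex line
`{v | ⟨v, e⟩ = 0}`, and it is conjugate to `(z₁, z₂) ↦ (-z₁, z₂)`, the case `e = (1, 0, 0)`. -/
def IsReflection (g : PU21) (e : Fin 3 → ℂ) : Prop :=
  herm e e = 1 ∧ ∃ A : U21, (A : PU21) = g ∧ ∀ x, A.1.1 *ᵥ x = -x + (2 * herm x e) • e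

/-- Let `M` be a Coxeter matrix of size three, with entries `M 0 1 = p`, `M 1 2 = q`, `M 2 0 = r`
(the entry `0` means `∞`, as usual in Mathlib, and then `π / 0 = 0`, `cos (π / 0) = 1`). Its Coxeter
group is the triangle group `Γ(p, q, r)`.

`IsTriangleGroup M t ρ` says that `ρ : Γ(p, q, r) → PU(2, 1)` is a complex hyperbolic `(p, q, r)`
triangle group with angular invariant `t`: the generators are mapped to complex reflections of order
two in complex lines `L₀, L₁, L₂`, with linearly independent polar vectors `e 0, e 1, e 2`; the lines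
`L i`, `L j` meet at the angle `π / M i j` (they are asymptotic if this is `0`), that is
`|⟨e i, e j⟩| = cos (π / M i j)`; and
`⟨e 0, e 1⟩ ⟨e 1, e 2⟩ ⟨e 2, e 0⟩ = - cos (π / p) cos (π / q) cos (π / r) exp (i t)`.
If the cosines are not zero these groups are determined by `t` modulo `2 π`, up to conjugation, and
`t = 0` is the case of a group preserving a real hyperbolic plane. -/
def IsTriangleGroup (M : CoxeterMatrix (Fin 3)) (t : ℝ) (ρ : M.Group →* PU21) : Prop :=
  ∃ e : Fin 3 → Fin 3 → ℂ, LinearIndependent ℂ e ∧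
    (∀ i, IsReflection (ρ (M.simple i)) (e i)) ∧
    (∀ i j, i ≠ j → ‖herm (e i) (e j)‖ = Real.cos (Real.pi / M i j)) ∧
    herm (e 0) (e 1) * herm (e 1) (e 2) * herm (e 2) (e 0) =
      -((Real.cos (Real.pi / M 0 1) * Real.cos (Real.pi / M 1 2) * Real.cos (Real.pi / M 2 0) : ℝ) :
        ℂ) * exp (t * I)

/-- The element `W_A = σ₁ σ₂ σ₃ σ₂` of the triangle group. -/
def WA (M : CoxeterMatrix (Fin 3)) : M.Group :=
  M.simple 0 * M.simple 1 * M.simple 2 * M.simple 1

/-- The element `W_B = σ₁ σ₂ σ₃` of the triangle group. -/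
def WB (M : CoxeterMatrix (Fin 3)) : M.Group :=
  M.simple 0 * M.simple 1 * M.simple 2

/-- `(p, q, r)` has type A: as the angular invariant `t` increases from `0`, `ρ_t (W_A)` becomes
elliptic strictly before `ρ_t (W_B)` does. (There is a `t₀` for which `ρ_t (W_A)` is elliptic, such
that `ρ_s (W_B)` is not elliptic for all `s` in `[0, t₀]`.) -/
def TypeA (M : CoxeterMatrix (Fin 3)) : Prop :=
  ∃ t₀ ∈ Set.Icc 0 Real.pi,
    (∃ ρ : M.Group →* PU21, IsTriangleGroup M t₀ ρ ∧ IsElliptic (ρ (WA M))) ∧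
    ∀ s ∈ Set.Icc 0 t₀, ∀ ρ : M.Group →* PU21, IsTriangleGroup M s ρ → ¬ IsElliptic (ρ (WB M))

/-- `(p, q, r)` has type B if it does not have type A. -/
def TypeB (M : CoxeterMatrix (Fin 3)) : Prop := ¬ TypeA M

/-- The set of the parameters `t` for which neither `ρ_t (W_A)` nor `ρ_t (W_B)` is elliptic. -/
def IZero (M : CoxeterMatrix (Fin 3)) : Set ℝ :=
  {t | ∀ ρ : M.Group →* PU21, IsTriangleGroup M t ρ →
    ¬ IsElliptic (ρ (WA M)) ∧ ¬ IsElliptic (ρ (WB M))}

/-- The image of `ρ` is a discrete infinite subgroup of `PU(2, 1)`. -/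
def DiscreteInfinite {M : CoxeterMatrix (Fin 3)} (ρ : M.Group →* PU21) : Prop :=
  DiscreteTopology ρ.range ∧ Infinite ρ.range

end Pool.Agent.X186.TG
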