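import Pool.Agent.X186.TG.Group

/-!
# Discreteness
-/

set_option autoImplicit false

open Matrix Complex Topology

namespace Pool.Agent.X186.TG

/-- distance from being scalar -/
noncomputable def DD (A : Matrix (Fin 3) (Fin 3) ℂ) : ℝ :=
  ‖A 0 1‖ + ‖A 0 2‖ + ‖A 1 0‖ + ‖A 1 2‖ + ‖A 2 0‖ + ‖A 2 1‖ + ‖A 0 0 - A 1 1‖ + ‖A 0 0 - A 2 2‖

theorem DD_nonneg (A : Matrix (Fin 3) (Fin 3) ℂ) : 0 ≤ DD A := by
  unfold DD; positivity

theorem DD_smul (c : ℂ) (hc : ‖c‖ = 1) (A : Matrix (Fin 3) (Fin 3) ℂ) : DD (c • A) = DD A := by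
  simp only [DD, Matrix.smul_apply, smul_eq_mul, ← mul_sub, norm_mul, hc, one_mul]

theorem scalar_of_DD (A : Matrix (Fin 3) (Fin 3) ℂ) (h : DD A = 0) (x : Fin 3 → ℂ) :
    A *ᵥ x = A 0 0 • x := by
  have a1 := norm_nonneg (A 0 1)
  have a2 := norm_nonneg (A 0 2)
  have a3 := norm_nonneg (A 1 0)
  have a4 := norm_nonneg (A 1 2)
  have a5 := norm_nonneg (A 2 0)
  have a6 := norm_nonneg (A 2 1)
  have a7 := norm_nonneg (A 0 0 - A 1 1)
  have a8 := norm_nonneg (A 0 0 - A 2 2)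
  unfold DD at h
  have b1 : A 0 1 = 0 := norm_eq_zero.mp (by linarith)
  have b2 : A 0 2 = 0 := norm_eq_zero.mp (by linarith)
  have b3 : A 1 0 = 0 := norm_eq_zero.mp (by linarith)
  have b4 : A 1 2 = 0 := norm_eq_zero.mp (by linarith)
  have b5 : A 2 0 = 0 := norm_eq_zero.mp (by linarith)
  have b6 : A 2 1 = 0 := norm_eq_zero.mp (by linarith)
  have b7 : A 0 0 - A 1 1 = 0 := norm_eq_zero.mp (by linarith)
  have b8 : A 0 0 - A 2 2 = 0 := norm_eq_zero.mp (by linarith)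
  ext l
  simp only [mulVec, dotProduct, Fin.sum_univ_three, Pi.smul_apply, smul_eq_mul]
  fin_cases l
  · simp [b1, b2]
  · simp only [Fin.mk_one]; rw [b3, b4]; linear_combination -(x 1) * b7
  · simp only [Fin.reduceFinMk]; rw [b5, b6]; linear_combination -(x 2) * b8

/-- The scalar of an element of `scalars` has absolute value one -/
theorem scalar_norm (z : U21) (c : ℂ) (hc : ∀ x, z.1.1 *ᵥ x = c • x) : ‖c‖ = 1 := by
  have h := z.2 (Pi.single 0 1) (Pi.single 0 1)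
  rw [hc, herm_eq, herm_eq, form_smul_left, form_smul_right] at h
  have h2 : form (-1) (Pi.single 0 1) (Pi.single 0 1) = 1 := by simp [form]
  rw [h2, mul_one] at h
  have h3 : ‖c‖ * ‖c‖ = 1 := by
    have := congrArg (fun z : ℂ => ‖z‖) h
    simpa using this
  nlinarith [norm_nonneg c]

theorem eq_smul {A B : U21} (h : (A : PU21) = (B : PU21)) :
    ∃ c : ℂ, ‖c‖ = 1 ∧ B.1.1 = c • A.1.1 := by
  rw [QuotientGroup.eq] at h
  obtain ⟨c, hc⟩ := h
  refine ⟨c, scalar_norm _ c hc, ?_⟩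
  apply mat_ext
  intro x
  have h1 : B = A * (A⁻¹ * B) := by group
  rw [h1, Subgroup.coe_mul, Units.val_mul, ← mulVec_mulVec, hc, mulVec_smul, smul_mulVec]

theorem continuous_DD : Continuous (fun A : U21 => DD A.1.1) := by
  have h : ∀ i j : Fin 3, Continuous (fun A : U21 => A.1.1 i j) := by
    intro i j
    have h1 : Continuous (fun A : U21 => A.1.1) :=
      Units.continuous_val.comp continuous_subtype_val
    exact (continuous_apply j).comp ((continuous_apply i).comp h1)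
  unfold DD
  have h01 := h 0 1
  have h02 := h 0 2
  have h10 := h 1 0
  have h12 := h 1 2
  have h20 := h 2 0
  have h21 := h 2 1
  have h00 := h 0 0
  have h11 := h 1 1
  have h22 := h 2 2
  fun_prop

theorem entry_bound (B : U21) (h : DD B.1.1 < 1) (l k : Fin 3) : ‖B.1.1 l k‖ ≤ 3 := by
  have h1 := B.2 (Pi.single 0 1) (Pi.single 0 1)
  have h2 : B.1.1 *ᵥ (Pi.single 0 1) = fun l => B.1.1 l 0 := by
    ext l; simp
  rw [h2, herm_eq, herm_eq] at h1
  have h3 : form (-1) (Pi.single 0 1) (Pi.single 0 1) = 1 := by simp [form]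
  rw [h3] at h1
  have h4 : normSq (B.1.1 0 0) + normSq (B.1.1 1 0) - normSq (B.1.1 2 0) = 1 := by
    have : ((normSq (B.1.1 0 0) + normSq (B.1.1 1 0) - normSq (B.1.1 2 0) : ℝ) : ℂ) = 1 := by
      push_cast
      rw [← Complex.mul_conj, ← Complex.mul_conj, ← Complex.mul_conj]
      simp only [form, Complex.star_def] at h1
      push_cast at h1
      linear_combination h1
    exact_mod_cast this
  rw [Complex.normSq_eq_norm_sq, Complex.normSq_eq_norm_sq, Complex.normSq_eq_norm_sq] at h4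
  have a1 := norm_nonneg (B.1.1 0 1)
  have a2 := norm_nonneg (B.1.1 0 2)
  have a3 := norm_nonneg (B.1.1 1 0)
  have a4 := norm_nonneg (B.1.1 1 2)
  have a5 := norm_nonneg (B.1.1 2 0)
  have a6 := norm_nonneg (B.1.1 2 1)
  have a7 := norm_nonneg (B.1.1 0 0 - B.1.1 1 1)
  have a8 := norm_nonneg (B.1.1 0 0 - B.1.1 2 2)
  unfold DD at h
  have h5 : ‖B.1.1 0 0‖ ≤ 2 := by
    have : ‖B.1.1 2 0‖ < 1 := by linarith
    nlinarith [norm_nonneg (B.1.1 0 0)]
  have h6 : ‖B.1.1 1 1‖ ≤ 3 := by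
    have := norm_sub_norm_le (B.1.1 1 1) (B.1.1 0 0)
    rw [norm_sub_rev] at this
    linarith
  have h7 : ‖B.1.1 2 2‖ ≤ 3 := by
    have := norm_sub_norm_le (B.1.1 2 2) (B.1.1 0 0)
    rw [norm_sub_rev] at this
    linarith
  fin_cases l <;> fin_cases k
  · show ‖B.1.1 0 0‖ ≤ 3
    linarith
  · show ‖B.1.1 0 1‖ ≤ 3
    linarith
  · show ‖B.1.1 0 2‖ ≤ 3
    linarith
  · show ‖B.1.1 1 0‖ ≤ 3
    linarith
  · show ‖B.1.1 1 1‖ ≤ 3
    linarith
  · show ‖B.1.1 1 2‖ ≤ 3
    linarith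
  · show ‖B.1.1 2 0‖ ≤ 3
    linarith
  · show ‖B.1.1 2 1‖ ≤ 3
    linarith
  · show ‖B.1.1 2 2‖ ≤ 3
    linarith

theorem exists_finite : ∃ F : Set (Matrix (Fin 3) (Fin 3) ℂ), F.Finite ∧
    ∀ g : M14.Group, ∃ B : U21, (B : PU21) = rho g ∧ (DD B.1.1 < 1 → B.1.1 ∈ F) := by
  have hex : ∀ i : Fin 3, ∃ Q : Matrix (Fin 3) (Fin 3) ℂ, Q * PM i = 1 ∧ PM i * Q = 1 := by
    intro i
    obtain ⟨u, hu⟩ := PM_isUnit i
    exact ⟨(u⁻¹ : _ˣ).1, by rw [← hu]; simp, by rw [← hu]; simp⟩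
  choose Q hQ hQ' using hex
  choose K hK using fun i => conj_bound (Q i) (PM i) 3
  set K' : ℝ := |K 0| + |K 1| + |K 2| with hK'
  have hKi : ∀ i, K i ≤ K' := by
    intro i
    have a0 := abs_nonneg (K 0)
    have a1 := abs_nonneg (K 1)
    have a2 := abs_nonneg (K 2)
    have := le_abs_self (K i)
    fin_cases i
    · exact this.trans (by show |K 0| ≤ _; linarith)
    · exact this.trans (by show |K 1| ≤ _; linarith)
    · exact this.trans (by show |K 2| ≤ _; linarith)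
  refine ⟨(fun X : M3 => PM 0 * M3.ev (sv 0) om X * Q 0) ''
    {X : M3 | ∀ i l k : Fin 3, ‖R6.ev (sv i) om (X l k)‖ ≤ K'}, (finite_M3 K').image _, ?_⟩
  intro g
  obtain ⟨B, X, h1, h2, h3⟩ := good_rho g
  refine ⟨B, h1, fun hB => ⟨X, ?_, ?_⟩⟩
  · intro i l k
    by_cases hi : i = 0
    · subst hi
      have h4 : M3.ev (sv 0) om X = Q 0 * B.1.1 * PM 0 := by
        rw [Matrix.mul_assoc, h2, ← Matrix.mul_assoc, hQ, Matrix.one_mul]
      have h5 := hK 0 B.1.1 (entry_bound B hB) l k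
      rw [← h4] at h5
      exact h5.trans (hKi 0)
    · obtain ⟨C, hC, hC'⟩ := h3 i hi
      have h4 : M3.ev (sv i) om X = Q i * C * PM i := by
        rw [Matrix.mul_assoc, hC', ← Matrix.mul_assoc, hQ, Matrix.one_mul]
      have h5 := hK i C (fun l k => (unitary_bound C hC l k).trans (by norm_num)) l k
      rw [← h4] at h5
      exact h5.trans (hKi i)
  · show PM 0 * M3.ev (sv 0) om X * Q 0 = B.1.1
    rw [← h2, Matrix.mul_assoc, hQ', Matrix.mul_one]

theorem discrete_range : DiscreteTopology rho.range := by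
  obtain ⟨F, hF, h⟩ := exists_finite
  -- the minimal positive value
  have hδ : ∃ δ : ℝ, 0 < δ ∧ δ ≤ 1 ∧ ∀ A ∈ F, DD A < δ → DD A = 0 := by
    have : ∀ S : Finset (Matrix (Fin 3) (Fin 3) ℂ), ∃ δ : ℝ, 0 < δ ∧ δ ≤ 1 ∧
        ∀ A ∈ S, DD A < δ → DD A = 0 := by
      intro S
      classical
      induction S using Finset.induction_on with
      | empty => exact ⟨1, one_pos, le_rfl, by simp⟩
      | insert a S _ ih =>
        obtain ⟨δ, h0, h1, h2⟩ := ih
        by_cases ha : DD a = 0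
        · refine ⟨δ, h0, h1, fun A hA hlt => ?_⟩
          rcases Finset.mem_insert.mp hA with rfl | hA
          · exact ha
          · exact h2 A hA hlt
        · have hpos : 0 < DD a := lt_of_le_of_ne (DD_nonneg a) (Ne.symm ha)
          refine ⟨min δ (DD a), lt_min h0 hpos, (min_le_left _ _).trans h1, fun A hA hlt => ?_⟩
          rcases Finset.mem_insert.mp hA with rfl | hA
          · exact absurd (hlt.trans_le (min_le_right _ _)) (lt_irrefl _)
          · exact h2 A hA (hlt.trans_le (min_le_left _ _))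
    obtain ⟨δ, a, b, c⟩ := this hF.toFinset
    exact ⟨δ, a, b, fun A hA => c A (by simpa using hA)⟩
  obtain ⟨δ, hδ0, hδ1, hδ2⟩ := hδ
  apply discreteTopology_of_isOpen_singleton_one
  have hV : IsOpen ((QuotientGroup.mk : U21 → PU21) '' {A : U21 | DD A.1.1 < δ}) :=
    QuotientGroup.isOpenMap_coe _ (isOpen_lt continuous_DD continuous_const)
  have hset : ({1} : Set rho.range) = Subtype.val ⁻¹'
      ((QuotientGroup.mk : U21 → PU21) '' {A : U21 | DD A.1.1 < δ}) := by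
    ext ⟨x, hx⟩
    simp only [Set.mem_singleton_iff, Set.mem_preimage]
    constructor
    · intro h1
      have h2 : x = 1 := congrArg Subtype.val h1
      refine ⟨1, ?_, ?_⟩
      · show DD (1 : Matrix (Fin 3) (Fin 3) ℂ) < δ
        have : DD (1 : Matrix (Fin 3) (Fin 3) ℂ) = 0 := by simp [DD]
        rw [this]; exact hδ0
      · rw [h2]; rfl
    · rintro ⟨A, hA, hAx⟩
      obtain ⟨g, rfl⟩ := hx
      obtain ⟨B, hB, hBF⟩ := h g
      obtain ⟨c, hc, hcAB⟩ := eq_smul (A := A) (B := B) (by rw [hAx, hB])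
      have hDD : DD B.1.1 = DD A.1.1 := by rw [hcAB, DD_smul c hc]
      have hA' : DD A.1.1 < δ := hA
      have h0 : DD B.1.1 = 0 := hδ2 _ (hBF (by linarith)) (by linarith)
      apply Subtype.ext
      show rho g = 1
      rw [← hB, QuotientGroup.eq_one_iff]
      exact ⟨B.1.1 0 0, scalar_of_DD _ h0⟩
  rw [hset]
  exact hV.preimage continuous_subtype_val

end Pool.Agent.X186.TG
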