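import Pool.Agent.X186.TG.Disc

/-!
# Orders of `W_A` and `W_B`
-/

set_option autoImplicit false

open Matrix Complex Topology

namespace Pool.Agent.X186.TG

/-- the lift of `W_A` -/
noncomputable def BA : U21 := rr 0 * rr 1 * rr 2 * rr 1

/-- the lift of `W_B` -/
noncomputable def BB : U21 := rr 0 * rr 1 * rr 2

theorem rho_WA : rho (WA M14) = (BA : PU21) := by
  simp only [WA, map_mul, rho_simple, BA, QuotientGroup.mk_mul]

theorem rho_WB : rho (WB M14) = (BB : PU21) := by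
  simp only [WB, map_mul, rho_simple, BB, QuotientGroup.mk_mul]

/-- matrix of `BA` -/
def XA : M3 := M3.mul (M3.mul (M3.mul (XR 0) (XR 1)) (XR 2)) (XR 1)

theorem BB_inter : BB.1.1 * PM 0 = PM 0 * M3.ev (sv 0) om XB := by
  rw [XB, M3.ev_mul (sv_cubicC 0) om_sq, M3.ev_mul (sv_cubicC 0) om_sq]
  exact mul_inter (mul_inter (rr_inter 0) (rr_inter 1)) (rr_inter 2)

theorem BA_inter : BA.1.1 * PM 0 = PM 0 * M3.ev (sv 0) om XA := by
  rw [XA, M3.ev_mul (sv_cubicC 0) om_sq, M3.ev_mul (sv_cubicC 0) om_sq,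
    M3.ev_mul (sv_cubicC 0) om_sq]
  exact mul_inter (mul_inter (mul_inter (rr_inter 0) (rr_inter 1)) (rr_inter 2)) (rr_inter 1)

theorem XB_pow : pow14 XB = fun i j => if i = j then (⟨0, 0, 0, 1, 0, 0⟩ : R6) else 0 := by
  decide +kernel

theorem BB_pow : ∀ x, (BB ^ 14).1.1 *ᵥ x = om • x := by
  intro x
  have h1 : ((BB ^ 14 : U21)).1.1 = (BB.1.1) ^ 14 := by
    simp [Units.val_pow_eq_pow_val]
  rw [h1]
  have h2 : BB.1.1 ^ 14 = om • (1 : Matrix (Fin 3) (Fin 3) ℂ) := by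
    apply cancel_PM (i := 0)
    rw [pow_inter BB_inter, ← ev_pow14, XB_pow]
    have h3 : M3.ev (sv 0) om (fun i j => if i = j then (⟨0, 0, 0, 1, 0, 0⟩ : R6) else 0) =
        om • (1 : Matrix (Fin 3) (Fin 3) ℂ) := by
      ext i j
      simp only [M3.ev, Matrix.smul_apply, Matrix.one_apply]
      split_ifs
      · simp [R6.ev]
      · simp [R6.ev_zero]
    rw [h3]
    simp
  rw [h2, smul_mulVec, one_mulVec]

/-- the negative eigenvector of `BB` -/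
noncomputable def vB : Fin 3 → ℂ := PM 0 *ᵥ ![1 + om, -om, -1]

theorem vB_neg : (herm vB vB).re < 0 := by
  have key : 2 * herm vB vB = 3 - (sv 0 : ℂ) ^ 2 := by
    rw [herm_eq, vB, PM_mulVec]
    simp only [Matrix.cons_val_zero, Matrix.cons_val_one, Matrix.cons_val_two,
        Matrix.head_cons, Matrix.tail_cons]
    simp only [form_add_left, form_add_right, form_smul_left, form_smul_right]
    have h : ∀ k j, 2 * form (-1) (ve 0 k) (ve 0 j) = R6.ev (sv 0) om (bm k j) := by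
      intro k j
      have := ve_form 0 k j
      rwa [es0] at this
    have hs1 : star (1 + om) = -om := by rw [star_add, star_om]; simp; ring
    have hs2 : star (-om) = 1 + om := by rw [star_neg, star_om]; ring
    have hs3 : star (-1 : ℂ) = -1 := by simp
    rw [hs1, hs2, hs3]
    have e00 := h 0 0
    have e01 := h 0 1
    have e02 := h 0 2
    have e10 := h 1 0
    have e11 := h 1 1
    have e12 := h 1 2
    have e20 := h 2 0
    have e21 := h 2 1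
    have e22 := h 2 2
    have b00 : bm 0 0 = ⟨2, 0, 0, 0, 0, 0⟩ := rfl
    have b01 : bm 0 1 = ⟨-1, 0, 1, 1, 0, 0⟩ := rfl
    have b02 : bm 0 2 = ⟨-1, 0, 1, -2, 0, 1⟩ := rfl
    have b10 : bm 1 0 = ⟨-2, 0, 1, -1, 0, 0⟩ := rfl
    have b11 : bm 1 1 = ⟨2, 0, 0, 0, 0, 0⟩ := rfl
    have b12 : bm 1 2 = ⟨-1, 0, 1, 1, 0, 0⟩ := rfl
    have b20 : bm 2 0 = ⟨1, 0, 0, 2, 0, -1⟩ := rfl
    have b21 : bm 2 1 = ⟨-2, 0, 1, -1, 0, 0⟩ := rfl
    have b22 : bm 2 2 = ⟨2, 0, 0, 0, 0, 0⟩ := rfl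
    rw [b00] at e00
    rw [b01] at e01
    rw [b02] at e02
    rw [b10] at e10
    rw [b11] at e11
    rw [b12] at e12
    rw [b20] at e20
    rw [b21] at e21
    rw [b22] at e22
    simp only [R6.ev] at e00 e01 e02 e10 e11 e12 e20 e21 e22
    push_cast at e00 e01 e02 e10 e11 e12 e20 e21 e22
    linear_combination ((1 + om) * (-om)) * e00 + ((1 + om) * (1 + om)) * e01 +
      ((1 + om) * (-1)) * e02 + ((-om) * (-om)) * e10 + ((-om) * (1 + om)) * e11 +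
      ((-om) * (-1)) * e12 + ((-1) * (-om)) * e20 + ((-1) * (1 + om)) * e21 +
      ((-1) * (-1)) * e22 + om_sq
  have h2 : 2 * (herm vB vB).re = 3 - sv 0 ^ 2 := by
    have := congrArg Complex.re key
    simpa [← Complex.ofReal_pow] using this
  linarith [sv0_sq]

theorem vB_eig : BB.1.1 *ᵥ vB = (-1 - om) • vB := by
  have h1 : BB.1.1 *ᵥ vB = PM 0 *ᵥ (M3.ev (sv 0) om XB *ᵥ ![1 + om, -om, -1]) := by
    rw [vB, mulVec_mulVec, BB_inter, ← mulVec_mulVec]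
  rw [h1, vB, ← mulVec_smul]
  congr 1
  -- columns
  have key : ∀ i : Fin 3, XB i 0 * ⟨1, 0, 0, 1, 0, 0⟩ + XB i 1 * ⟨0, 0, 0, -1, 0, 0⟩ +
      XB i 2 * ⟨-1, 0, 0, 0, 0, 0⟩ = ⟨-1, 0, 0, -1, 0, 0⟩ *
        (![⟨1, 0, 0, 1, 0, 0⟩, ⟨0, 0, 0, -1, 0, 0⟩, ⟨-1, 0, 0, 0, 0, 0⟩] : Fin 3 → R6) i := by
    decide +kernel
  have c1 : R6.ev (sv 0) om ⟨1, 0, 0, 1, 0, 0⟩ = 1 + om := by simp [R6.ev]
  have c2 : R6.ev (sv 0) om ⟨0, 0, 0, -1, 0, 0⟩ = -om := by simp [R6.ev]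
  have c3 : R6.ev (sv 0) om ⟨-1, 0, 0, 0, 0, 0⟩ = -1 := by simp [R6.ev]
  have c4 : R6.ev (sv 0) om ⟨-1, 0, 0, -1, 0, 0⟩ = -1 - om := by simp [R6.ev]; ring
  ext i
  have h2 := congrArg (R6.ev (sv 0) om) (key i)
  rw [R6.ev_add, R6.ev_add, R6.ev_mul (sv_cubicC 0) om_sq, R6.ev_mul (sv_cubicC 0) om_sq,
    R6.ev_mul (sv_cubicC 0) om_sq, R6.ev_mul (sv_cubicC 0) om_sq, c1, c2, c3, c4] at h2
  have h3 : R6.ev (sv 0) om ((![⟨1, 0, 0, 1, 0, 0⟩, ⟨0, 0, 0, -1, 0, 0⟩, ⟨-1, 0, 0, 0, 0, 0⟩] :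
      Fin 3 → R6) i) = (![1 + om, -om, -1] : Fin 3 → ℂ) i := by
    fin_cases i
    · exact c1
    · exact c2
    · exact c3
  rw [h3] at h2
  simp only [mulVec, dotProduct, Fin.sum_univ_three, Pi.smul_apply, smul_eq_mul]
  rw [← h2]
  rfl

theorem elliptic_WB : IsElliptic (rho (WB M14)) :=
  ⟨BB, rho_WB.symm, vB, vB_neg, _, vB_eig⟩

/-! ### infinite order of `W_A` -/

/-- `h = s ^ 2 - 1` -/
noncomputable def hh : ℝ := sv 0 ^ 2 - 1

theorem hh_gt : 2 < hh := by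
  unfold hh
  linarith [sv0_sq]

theorem XA_rec : ∀ i : Fin 3, (XA i 0 * XA 0 0 + XA i 1 * XA 1 0 + XA i 2 * XA 2 0) =
    ⟨-1, 0, 1, 0, 0, 0⟩ * XA i 0 + (if i = 0 then ⟨-1, 0, 0, 0, 0, 0⟩ else 0) := by
  decide +kernel

theorem BA_rec : BA.1.1 *ᵥ (BA.1.1 *ᵥ ve 0 0) = (hh : ℂ) • (BA.1.1 *ᵥ ve 0 0) - ve 0 0 := by
  have h0 : ve 0 0 = PM 0 *ᵥ (Pi.single 0 1) := by
    rw [PM_mulVec]
    simp
  have h1 : BA.1.1 *ᵥ ve 0 0 = PM 0 *ᵥ (M3.ev (sv 0) om XA *ᵥ (Pi.single 0 1)) := by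
    rw [h0, mulVec_mulVec, BA_inter, ← mulVec_mulVec]
  rw [h1, mulVec_mulVec, BA_inter, ← mulVec_mulVec, ← mulVec_smul]
  conv_rhs => rw [h0]
  rw [← mulVec_sub]
  congr 1
  ext i
  have h2 := congrArg (R6.ev (sv 0) om) (XA_rec i)
  rw [R6.ev_add, R6.ev_add, R6.ev_add, R6.ev_mul (sv_cubicC 0) om_sq,
    R6.ev_mul (sv_cubicC 0) om_sq, R6.ev_mul (sv_cubicC 0) om_sq,
    R6.ev_mul (sv_cubicC 0) om_sq] at h2
  have c1 : R6.ev (sv 0) om ⟨-1, 0, 1, 0, 0, 0⟩ = hh := by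
    simp [R6.ev, hh]; ring
  have c2 : R6.ev (sv 0) om (if i = 0 then ⟨-1, 0, 0, 0, 0, 0⟩ else 0) =
      -(Pi.single 0 1 : Fin 3 → ℂ) i := by
    fin_cases i
    · simp [R6.ev]
    · simp [R6.ev_zero]
    · simp [R6.ev_zero]
  rw [c1, c2] at h2
  simp only [Pi.sub_apply, Pi.smul_apply, smul_eq_mul]
  have h3 : ∀ j, (M3.ev (sv 0) om XA *ᵥ (Pi.single 0 1)) j = R6.ev (sv 0) om (XA j 0) := by
    intro j
    simp [M3.ev]
  rw [h3]
  simp only [mulVec, dotProduct, Fin.sum_univ_three] at h3 ⊢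
  rw [h3, h3, h3]
  simp only [M3.ev]
  linear_combination h2

theorem BA_first : 2 * form (-1) (BA.1.1 *ᵥ ve 0 0) (ve 0 0) = hh := by
  have h0 : ve 0 0 = PM 0 *ᵥ (Pi.single 0 1) := by
    rw [PM_mulVec]
    simp
  have h1 : BA.1.1 *ᵥ ve 0 0 = PM 0 *ᵥ (M3.ev (sv 0) om XA *ᵥ (Pi.single 0 1)) := by
    conv_lhs => rw [h0]
    rw [mulVec_mulVec, BA_inter, ← mulVec_mulVec]
  have h3 : ∀ j, (M3.ev (sv 0) om XA *ᵥ (Pi.single 0 1)) j = R6.ev (sv 0) om (XA j 0) := by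
    intro j
    simp [M3.ev]
  rw [h1, PM_mulVec, h3, h3, h3]
  simp only [form_add_left, form_smul_left]
  have h : ∀ k j, 2 * form (-1) (ve 0 k) (ve 0 j) = R6.ev (sv 0) om (bm k j) := by
    intro k j
    have := ve_form 0 k j
    rwa [es0] at this
  have key : XA 0 0 * bm 0 0 + XA 1 0 * bm 1 0 + XA 2 0 * bm 2 0 = ⟨-1, 0, 1, 0, 0, 0⟩ := by
    decide +kernel
  have h2 := congrArg (R6.ev (sv 0) om) key
  rw [R6.ev_add, R6.ev_add, R6.ev_mul (sv_cubicC 0) om_sq,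
    R6.ev_mul (sv_cubicC 0) om_sq, R6.ev_mul (sv_cubicC 0) om_sq] at h2
  have c1 : R6.ev (sv 0) om ⟨-1, 0, 1, 0, 0, 0⟩ = hh := by
    simp [R6.ev, hh]; ring
  rw [c1] at h2
  have e0 := h 0 0
  have e1 := h 1 0
  have e2 := h 2 0
  linear_combination h2 + R6.ev (sv 0) om (XA 0 0) * e0 + R6.ev (sv 0) om (XA 1 0) * e1 +
    R6.ev (sv 0) om (XA 2 0) * e2

/-- the real sequence `⟨B ^ n e₀, e₀⟩` -/
noncomputable def as : ℕ → ℝ
  | 0 => 1
  | 1 => hh / 2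
  | (n + 2) => hh * as (n + 1) - as n

theorem as_spec (n : ℕ) : form (-1) ((BA.1.1 ^ n) *ᵥ ve 0 0) (ve 0 0) = as n ∧
    form (-1) ((BA.1.1 ^ (n + 1)) *ᵥ ve 0 0) (ve 0 0) = as (n + 1) := by
  induction n with
  | zero =>
    constructor
    · simp only [pow_zero, one_mulVec, as]
      have := ve0_self 0
      rw [this]; simp
    · simp only [zero_add, pow_one, as]
      push_cast
      linear_combination BA_first / 2
  | succ n ih =>
    refine ⟨ih.2, ?_⟩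
    have h1 : (BA.1.1 ^ (n + 1 + 1)) *ᵥ ve 0 0 =
        (hh : ℂ) • ((BA.1.1 ^ (n + 1)) *ᵥ ve 0 0) - (BA.1.1 ^ n) *ᵥ ve 0 0 := by
      have e2 : BA.1.1 ^ (n + 1 + 1) = BA.1.1 ^ n * (BA.1.1 * BA.1.1) := by
        rw [pow_succ, pow_succ, Matrix.mul_assoc]
      rw [e2, ← mulVec_mulVec, ← mulVec_mulVec, BA_rec, mulVec_sub, mulVec_smul, pow_succ,
        ← mulVec_mulVec]
    rw [h1, form_sub_left, form_smul_left, ih.1, ih.2]
    simp only [as]
    push_cast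
    ring

theorem as_mono (n : ℕ) : 1 ≤ as n ∧ as n < as (n + 1) := by
  have hg := hh_gt
  induction n with
  | zero =>
    simp only [as]
    constructor
    · exact le_rfl
    · linarith
  | succ n ih =>
    obtain ⟨i1, i2⟩ := ih
    have h1 : 1 ≤ as (n + 1) := by linarith
    refine ⟨h1, ?_⟩
    show as (n + 1) < hh * as (n + 1) - as n
    nlinarith

theorem infinite_range : Infinite rho.range := by
  by_contra hfin
  rw [not_infinite_iff_finite] at hfin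
  have h1 : IsOfFinOrder (⟨rho (WA M14), ⟨_, rfl⟩⟩ : rho.range) := isOfFinOrder_of_finite _
  obtain ⟨n, hn, hn'⟩ := isOfFinOrder_iff_pow_eq_one.mp h1
  have h2 : (rho (WA M14)) ^ n = 1 := by
    have := congrArg Subtype.val hn'
    simpa using this
  rw [rho_WA, ← QuotientGroup.mk_pow, QuotientGroup.eq_one_iff] at h2
  obtain ⟨c, hc⟩ := h2
  have hc1 := scalar_norm _ c hc
  have h3 := (as_spec n).1
  have h4 : ((BA ^ n : U21)).1.1 = BA.1.1 ^ n := by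
    simp [Units.val_pow_eq_pow_val]
  rw [← h4, hc, form_smul_left, ve0_self, mul_one] at h3
  rw [h3, Complex.norm_real, Real.norm_eq_abs] at hc1
  obtain ⟨m, rfl⟩ : ∃ m, n = m + 1 := ⟨n - 1, by omega⟩
  have h5 := as_mono m
  rw [abs_of_pos (by linarith)] at hc1
  linarith

/-! ### non-injectivity -/

theorem notin_IZero (t : ℝ) (h : IsTriangleGroup M14 t rho) : t ∉ IZero M14 := by
  intro ht
  exact (ht rho h).2 elliptic_WB

/-- permutations of seven letters -/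
def pa : Equiv.Perm (Fin 7) where
  toFun := ![0, 2, 1, 4, 3, 6, 5]
  invFun := ![0, 2, 1, 4, 3, 6, 5]
  left_inv := by decide
  right_inv := by decide

def pb : Equiv.Perm (Fin 7) where
  toFun := ![0, 2, 1, 5, 6, 3, 4]
  invFun := ![0, 2, 1, 5, 6, 3, 4]
  left_inv := by decide
  right_inv := by decide

def pc : Equiv.Perm (Fin 7) where
  toFun := ![1, 0, 3, 2, 5, 4, 6]
  invFun := ![1, 0, 3, 2, 5, 4, 6]
  left_inv := by decide
  right_inv := by decide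

def pp : Fin 3 → Equiv.Perm (Fin 7) := ![pa, pb, pc]

theorem pp_rel : ∀ i j : Fin 3, i ≠ j → (pp i * pp j) ^ 14 = 1 := by decide +kernel

theorem pp_sq : ∀ i : Fin 3, pp i * pp i = 1 := by decide +kernel

theorem pp_lift : M14.IsLiftable pp := by
  intro i j
  by_cases h : i = j
  · subst h
    rw [M14_self, pow_one, pp_sq]
  · rw [M14_ne i j h, pp_rel i j h]

theorem WB_pow_ne : (WB M14) ^ 14 ≠ 1 := by
  intro h
  have h1 := congrArg (M14.toCoxeterSystem.lift ⟨pp, pp_lift⟩) h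
  have h2 : ∀ k, (M14.toCoxeterSystem.lift ⟨pp, pp_lift⟩) (M14.simple k) = pp k := by
    intro k
    have := M14.toCoxeterSystem.lift_apply_simple pp_lift k
    simpa using this
  rw [map_pow, map_one, WB, map_mul, map_mul, h2, h2, h2] at h1
  revert h1
  decide +kernel

theorem not_inj : ¬ Function.Injective rho := by
  intro h
  apply WB_pow_ne
  apply h
  rw [map_pow, map_one, rho_WB, ← QuotientGroup.mk_pow, QuotientGroup.eq_one_iff]
  exact ⟨om, BB_pow⟩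

end Pool.Agent.X186.TG
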