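import Pool.Agent.X186.TG.Places

/-!
# Finiteness of the set of elements of bounded height
-/

set_option autoImplicit false

open Matrix Complex

namespace Pool.Agent.X186.TG

theorem coord_bound (a b : ℤ) (N : ℝ) (h : ‖(a : ℂ) + b * om‖ ≤ N) :
    |(a : ℝ)| ≤ 3 * N ∧ |(b : ℝ)| ≤ 3 * N := by
  have him : ((a : ℂ) + b * om).im = -(b * (Real.sqrt 3 / 2)) := by
    simp [om]
  have h1 : |(b : ℝ) * (Real.sqrt 3 / 2)| ≤ N := by
    have := (Complex.abs_im_le_norm ((a : ℂ) + b * om)).trans h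
    rwa [him, abs_neg] at this
  have hs : (1 : ℝ) ≤ Real.sqrt 3 := by
    rw [show (1 : ℝ) = Real.sqrt 1 by simp]
    exact Real.sqrt_le_sqrt (by norm_num)
  have hb : |(b : ℝ)| ≤ 2 * N := by
    rw [abs_mul, abs_of_nonneg (by positivity : (0 : ℝ) ≤ Real.sqrt 3 / 2)] at h1
    nlinarith [abs_nonneg (b : ℝ)]
  have hN : 0 ≤ N := (norm_nonneg _).trans h
  refine ⟨?_, by linarith⟩
  have h2 : ‖(a : ℂ)‖ ≤ ‖(a : ℂ) + b * om‖ + ‖(b : ℂ) * om‖ := by
    have := norm_sub_le ((a : ℂ) + b * om) (b * om)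
    simpa using this
  rw [norm_mul, norm_om, mul_one] at h2
  simp only [Complex.norm_intCast] at h2
  linarith

theorem exists_coord_bound (K : ℝ) : ∃ N : ℝ, ∀ x : R6,
    (∀ i : Fin 3, ‖R6.ev (sv i) om x‖ ≤ K) →
    ‖(x.a0 : ℂ) + x.b0 * om‖ ≤ N ∧ ‖(x.a1 : ℂ) + x.b1 * om‖ ≤ N ∧
      ‖(x.a2 : ℂ) + x.b2 * om‖ ≤ N := by
  have d01 : 0 < sv 0 - sv 1 := by linarith [sv0_gt, sv1_lt]
  have d12 : 0 < sv 1 - sv 2 := by linarith [sv21]
  have d02 : 0 < sv 0 - sv 2 := by linarith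
  set Δ : ℝ := (sv 0 - sv 1) * (sv 0 - sv 2) * (sv 1 - sv 2) with hΔ
  have hΔp : 0 < Δ := by positivity
  set S : ℝ := (sv 1 - sv 2) + (sv 0 - sv 2) + (sv 0 - sv 1) with hS
  set N2 : ℝ := |K| * S / Δ with hN2
  set N1 : ℝ := 2 * |K| / (sv 0 - sv 1) + N2 * |sv 0 + sv 1| with hN1
  set N0 : ℝ := |K| + N1 * |sv 0| + N2 * |sv 0| ^ 2 with hN0
  refine ⟨max N0 (max N1 N2), fun x hx => ?_⟩
  have hx' : ∀ i : Fin 3, ‖R6.ev (sv i) om x‖ ≤ |K| := fun i => (hx i).trans (le_abs_self K)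
  set w0 : ℂ := x.a0 + x.b0 * om with hw0
  set w1 : ℂ := x.a1 + x.b1 * om with hw1
  set w2 : ℂ := x.a2 + x.b2 * om with hw2
  have hev : ∀ i : Fin 3, R6.ev (sv i) om x = w0 + w1 * sv i + w2 * sv i ^ 2 := by
    intro i
    simp only [R6.ev, hw0, hw1, hw2]
    ring
  have e2 : w2 * (Δ : ℂ) = R6.ev (sv 0) om x * ((sv 1 - sv 2 : ℝ) : ℂ) -
      R6.ev (sv 1) om x * ((sv 0 - sv 2 : ℝ) : ℂ) + R6.ev (sv 2) om x * ((sv 0 - sv 1 : ℝ) : ℂ) := by
    rw [hev, hev, hev, hΔ]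
    push_cast
    ring
  have b2 : ‖w2‖ ≤ N2 := by
    have h1 : ‖w2‖ * Δ ≤ |K| * S := by
      have h2 : ‖w2 * (Δ : ℂ)‖ = ‖w2‖ * Δ := by
        rw [norm_mul, Complex.norm_real, Real.norm_of_nonneg hΔp.le]
      rw [← h2, e2]
      refine (norm_add_le _ _).trans ?_
      have h3 := norm_sub_le (R6.ev (sv 0) om x * ((sv 1 - sv 2 : ℝ) : ℂ))
        (R6.ev (sv 1) om x * ((sv 0 - sv 2 : ℝ) : ℂ))
      rw [norm_mul, norm_mul, Complex.norm_real, Complex.norm_real, Real.norm_of_nonneg d12.le,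
        Real.norm_of_nonneg d02.le] at h3
      rw [norm_mul (R6.ev (sv 2) om x), Complex.norm_real, Real.norm_of_nonneg d01.le]
      nlinarith [hx' 0, hx' 1, hx' 2]
    rw [hN2, le_div_iff₀ hΔp]
    exact h1
  have e1 : w1 * ((sv 0 - sv 1 : ℝ) : ℂ) = (R6.ev (sv 0) om x - R6.ev (sv 1) om x) -
      w2 * ((sv 0 + sv 1 : ℝ) : ℂ) * ((sv 0 - sv 1 : ℝ) : ℂ) := by
    rw [hev, hev]
    push_cast
    ring
  have b1 : ‖w1‖ ≤ N1 := by
    have h2 : ‖w1 * ((sv 0 - sv 1 : ℝ) : ℂ)‖ = ‖w1‖ * (sv 0 - sv 1) := by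
      rw [norm_mul, Complex.norm_real, Real.norm_of_nonneg d01.le]
    have h1 : ‖w1‖ * (sv 0 - sv 1) ≤ 2 * |K| + N2 * |sv 0 + sv 1| * (sv 0 - sv 1) := by
      rw [← h2, e1]
      refine (norm_sub_le _ _).trans ?_
      have h3 := norm_sub_le (R6.ev (sv 0) om x) (R6.ev (sv 1) om x)
      rw [norm_mul, norm_mul, Complex.norm_real, Complex.norm_real, Real.norm_of_nonneg d01.le,
        Real.norm_eq_abs]
      have h4 : ‖w2‖ * |sv 0 + sv 1| * (sv 0 - sv 1) ≤ N2 * |sv 0 + sv 1| * (sv 0 - sv 1) := by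
        gcongr
      linarith [hx' 0, hx' 1]
    rw [hN1]
    have h5 : N2 * |sv 0 + sv 1| = N2 * |sv 0 + sv 1| * (sv 0 - sv 1) / (sv 0 - sv 1) := by
      field_simp
    rw [h5, ← add_div, le_div_iff₀ d01]
    exact h1
  have b0 : ‖w0‖ ≤ N0 := by
    have e0 : w0 = R6.ev (sv 0) om x - w1 * sv 0 - w2 * sv 0 ^ 2 := by
      rw [hev]; ring
    rw [e0]
    refine (norm_sub_le _ _).trans ?_
    have h3 := norm_sub_le (R6.ev (sv 0) om x) (w1 * (sv 0 : ℂ))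
    rw [norm_mul, Complex.norm_real, Real.norm_eq_abs] at h3
    rw [norm_mul, norm_pow, Complex.norm_real, Real.norm_eq_abs]
    have h4 : ‖w1‖ * |sv 0| ≤ N1 * |sv 0| := by gcongr
    have h5 : ‖w2‖ * |sv 0| ^ 2 ≤ N2 * |sv 0| ^ 2 := by gcongr
    linarith [hx' 0]
  exact ⟨b0.trans (le_max_left _ _), b1.trans ((le_max_left _ _).trans (le_max_right _ _)),
    b2.trans ((le_max_right _ _).trans (le_max_right _ _))⟩

theorem finite_R6 (K : ℝ) : {x : R6 | ∀ i : Fin 3, ‖R6.ev (sv i) om x‖ ≤ K}.Finite := by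
  obtain ⟨N, hN⟩ := exists_coord_bound K
  set m : ℤ := ⌈3 * N⌉ with hm
  have hfin : (Set.Icc (fun _ : Fin 6 => -m) (fun _ : Fin 6 => m)).Finite := Set.finite_Icc _ _
  refine (hfin.image (fun f : Fin 6 → ℤ => (⟨f 0, f 1, f 2, f 3, f 4, f 5⟩ : R6))).subset ?_
  intro x hx
  obtain ⟨h0, h1, h2⟩ := hN x hx
  have c0 := coord_bound _ _ _ h0
  have c1 := coord_bound _ _ _ h1
  have c2 := coord_bound _ _ _ h2
  have key : ∀ a : ℤ, |(a : ℝ)| ≤ 3 * N → -m ≤ a ∧ a ≤ m := by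
    intro a ha
    have h3 : |(a : ℝ)| ≤ (m : ℝ) := ha.trans (Int.le_ceil _)
    have h4 : |a| ≤ m := by exact_mod_cast h3
    exact abs_le.mp h4
  refine ⟨![x.a0, x.a1, x.a2, x.b0, x.b1, x.b2], ?_, rfl⟩
  constructor
  · intro k
    fin_cases k
    · exact (key _ c0.1).1
    · exact (key _ c1.1).1
    · exact (key _ c2.1).1
    · exact (key _ c0.2).1
    · exact (key _ c1.2).1
    · exact (key _ c2.2).1
  · intro k
    fin_cases k
    · exact (key _ c0.1).2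
    · exact (key _ c1.1).2
    · exact (key _ c2.1).2
    · exact (key _ c0.2).2
    · exact (key _ c1.2).2
    · exact (key _ c2.2).2

theorem finite_M3 (K : ℝ) :
    {X : M3 | ∀ i l k : Fin 3, ‖R6.ev (sv i) om (X l k)‖ ≤ K}.Finite := by
  have h : {X : M3 | ∀ i l k : Fin 3, ‖R6.ev (sv i) om (X l k)‖ ≤ K} =
      Set.pi Set.univ (fun _ : Fin 3 => Set.pi Set.univ
        (fun _ : Fin 3 => {x : R6 | ∀ i : Fin 3, ‖R6.ev (sv i) om x‖ ≤ K})) := by
    ext X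
    constructor
    · intro hX l _ k _ i
      exact hX i l k
    · intro hX i l k
      exact hX l trivial k trivial i
  rw [h]
  exact Set.Finite.pi fun _ => Set.Finite.pi fun _ => finite_R6 K

/-- conjugating a bounded matrix gives a bounded matrix -/
theorem conj_bound (A B : Matrix (Fin 3) (Fin 3) ℂ) (c : ℝ) : ∃ K : ℝ,
    ∀ C : Matrix (Fin 3) (Fin 3) ℂ, (∀ l k, ‖C l k‖ ≤ c) → ∀ l k, ‖(A * C * B) l k‖ ≤ K := by
  refine ⟨∑ l, ∑ k, ∑ b, ∑ a, ‖A l a‖ * c * ‖B b k‖, fun C hC l k => ?_⟩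
  have hc : 0 ≤ c := (norm_nonneg _).trans (hC 0 0)
  have h1 : ‖(A * C * B) l k‖ ≤ ∑ b, ∑ a, ‖A l a‖ * c * ‖B b k‖ := by
    rw [Matrix.mul_apply]
    refine (norm_sum_le _ _).trans (Finset.sum_le_sum fun b _ => ?_)
    rw [norm_mul, Matrix.mul_apply]
    calc ‖∑ a, A l a * C a b‖ * ‖B b k‖ ≤ (∑ a, ‖A l a‖ * c) * ‖B b k‖ := by
          gcongr
          refine (norm_sum_le _ _).trans (Finset.sum_le_sum fun a _ => ?_)
          rw [norm_mul]
          gcongr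
          exact hC a b
      _ = ∑ a, ‖A l a‖ * c * ‖B b k‖ := by rw [Finset.sum_mul]
  refine h1.trans ?_
  have h2 : ∑ b, ∑ a, ‖A l a‖ * c * ‖B b k‖ ≤ ∑ k, ∑ b, ∑ a, ‖A l a‖ * c * ‖B b k‖ :=
    Finset.single_le_sum (f := fun k => ∑ b, ∑ a, ‖A l a‖ * c * ‖B b k‖)
      (fun k _ => Finset.sum_nonneg fun b _ => Finset.sum_nonneg fun a _ => by positivity)
      (Finset.mem_univ k)
  refine h2.trans ?_
  exact Finset.single_le_sum (f := fun l => ∑ k, ∑ b, ∑ a, ‖A l a‖ * c * ‖B b k‖)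
      (fun l _ => Finset.sum_nonneg fun k _ => Finset.sum_nonneg fun b _ =>
        Finset.sum_nonneg fun a _ => by positivity)
      (Finset.mem_univ l)

/-- a matrix preserving the positive definite form has entries of absolute value at most one -/
theorem unitary_bound (C : Matrix (Fin 3) (Fin 3) ℂ)
    (h : ∀ x y, form 1 (C *ᵥ x) (C *ᵥ y) = form 1 x y) (l k : Fin 3) : ‖C l k‖ ≤ 1 := by
  have h1 := h (Pi.single k 1) (Pi.single k 1)
  have h2 : C *ᵥ (Pi.single k 1) = fun l => C l k := by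
    ext l; simp
  rw [h2] at h1
  have h3 : form 1 (Pi.single k 1) (Pi.single k 1) = 1 := by
    fin_cases k <;> simp [form]
  rw [h3] at h1
  have h4 : normSq (C 0 k) + normSq (C 1 k) + normSq (C 2 k) = 1 := by
    have : ((normSq (C 0 k) + normSq (C 1 k) + normSq (C 2 k) : ℝ) : ℂ) = 1 := by
      push_cast
      rw [← Complex.mul_conj, ← Complex.mul_conj, ← Complex.mul_conj]
      simpa [form] using h1
    exact_mod_cast this
  have h5 : normSq (C l k) ≤ 1 := by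
    have a0 := normSq_nonneg (C 0 k)
    have a1 := normSq_nonneg (C 1 k)
    have a2 := normSq_nonneg (C 2 k)
    fin_cases l
    · show normSq (C 0 k) ≤ 1
      linarith
    · show normSq (C 1 k) ≤ 1
      linarith
    · show normSq (C 2 k) ≤ 1
      linarith
  rw [Complex.normSq_eq_norm_sq] at h5
  nlinarith [norm_nonneg (C l k)]

end Pool.Agent.X186.TG
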