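import Mathlib

/-!
# Computations in `ℤ[s, w]`, `s³ = s² + 2 s - 1`, `w² = -1 - w`
-/

set_option autoImplicit false

open Matrix

namespace Pool.Agent.X186.TG

/-- `a0 + a1 s + a2 s² + (b0 + b1 s + b2 s²) w` -/
structure R6 where
  a0 : ℤ
  a1 : ℤ
  a2 : ℤ
  b0 : ℤ
  b1 : ℤ
  b2 : ℤ
deriving DecidableEq

namespace R6

@[ext] theorem ext' {x y : R6} (h0 : x.a0 = y.a0) (h1 : x.a1 = y.a1) (h2 : x.a2 = y.a2)
    (h3 : x.b0 = y.b0) (h4 : x.b1 = y.b1) (h5 : x.b2 = y.b2) : x = y := by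
  cases x; cases y; simp_all

def add (x y : R6) : R6 :=
  ⟨x.a0 + y.a0, x.a1 + y.a1, x.a2 + y.a2, x.b0 + y.b0, x.b1 + y.b1, x.b2 + y.b2⟩

/-- multiplication in `ℤ[s]` -/
def m0 (x y : ℤ × ℤ × ℤ) : ℤ × ℤ × ℤ :=
  let d0 := x.1 * y.1
  let d1 := x.1 * y.2.1 + x.2.1 * y.1
  let d2 := x.1 * y.2.2 + x.2.1 * y.2.1 + x.2.2 * y.1
  let d3 := x.2.1 * y.2.2 + x.2.2 * y.2.1
  let d4 := x.2.2 * y.2.2
  (d0 - d3 - d4, d1 + 2 * d3 + d4, d2 + d3 + 3 * d4)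

def mul (x y : R6) : R6 :=
  let A := (x.a0, x.a1, x.a2)
  let B := (x.b0, x.b1, x.b2)
  let C := (y.a0, y.a1, y.a2)
  let D := (y.b0, y.b1, y.b2)
  let AC := m0 A C
  let BD := m0 B D
  let AD := m0 A D
  let BC := m0 B C
  ⟨AC.1 - BD.1, AC.2.1 - BD.2.1, AC.2.2 - BD.2.2,
    AD.1 + BC.1 - BD.1, AD.2.1 + BC.2.1 - BD.2.1, AD.2.2 + BC.2.2 - BD.2.2⟩

instance : Add R6 := ⟨add⟩
instance : Mul R6 := ⟨mul⟩
instance : Zero R6 := ⟨⟨0, 0, 0, 0, 0, 0⟩⟩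
instance : One R6 := ⟨⟨1, 0, 0, 0, 0, 0⟩⟩

/-- evaluation -/
def ev (s w : ℂ) (x : R6) : ℂ :=
  (x.a0 + x.a1 * s + x.a2 * s ^ 2) + (x.b0 + x.b1 * s + x.b2 * s ^ 2) * w

theorem ev_zero (s w : ℂ) : ev s w 0 = 0 := by
  show ev s w ⟨0, 0, 0, 0, 0, 0⟩ = 0
  simp [ev]

theorem ev_one (s w : ℂ) : ev s w 1 = 1 := by
  show ev s w ⟨1, 0, 0, 0, 0, 0⟩ = 1
  simp [ev]

theorem ev_add (s w : ℂ) (x y : R6) : ev s w (x + y) = ev s w x + ev s w y := by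
  show ev s w (add x y) = _
  simp only [ev, add]
  push_cast
  ring

theorem ev_mul {s w : ℂ} (hs : s ^ 3 = s ^ 2 + 2 * s - 1) (hw : w ^ 2 = -1 - w) (x y : R6) :
    ev s w (x * y) = ev s w x * ev s w y := by
  show ev s w (mul x y) = _
  have hs4 : s ^ 4 = 3 * s ^ 2 + s - 1 := by
    have : s ^ 4 = s * s ^ 3 := by ring
    rw [this, hs]
    linear_combination hs
  simp only [ev, mul, m0]
  push_cast
  obtain ⟨a0, a1, a2, b0, b1, b2⟩ := x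
  obtain ⟨c0, c1, c2, d0, d1, d2⟩ := y
  simp only
  have key : ∀ A B C D : ℂ, (A + B * w) * (C + D * w) =
      (A * C - B * D) + (A * D + B * C - B * D) * w := by
    intro A B C D
    linear_combination (B * D) * hw
  have k2 : ∀ x0 x1 x2 y0 y1 y2 : ℂ, (x0 + x1 * s + x2 * s ^ 2) * (y0 + y1 * s + y2 * s ^ 2) =
      (x0 * y0 - (x1 * y2 + x2 * y1) - x2 * y2) +
      (x0 * y1 + x1 * y0 + 2 * (x1 * y2 + x2 * y1) + x2 * y2) * s +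
      (x0 * y2 + x1 * y1 + x2 * y0 + (x1 * y2 + x2 * y1) + 3 * (x2 * y2)) * s ^ 2 := by
    intro x0 x1 x2 y0 y1 y2
    linear_combination (x1 * y2 + x2 * y1) * hs + (x2 * y2) * hs4
  rw [key, k2, k2, k2, k2]
  ring

end R6

/-- matrices -/
abbrev M3 : Type := Fin 3 → Fin 3 → R6

namespace M3

def mul (X Y : M3) : M3 := fun i j => X i 0 * Y 0 j + X i 1 * Y 1 j + X i 2 * Y 2 j

def one : M3 := fun i j => if i = j then 1 else 0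

def ev (s w : ℂ) (X : M3) : Matrix (Fin 3) (Fin 3) ℂ := fun i j => R6.ev s w (X i j)

theorem ev_one (s w : ℂ) : ev s w one = 1 := by
  ext i j
  simp only [ev, one, Matrix.one_apply]
  split_ifs
  · exact R6.ev_one s w
  · exact R6.ev_zero s w

theorem ev_mul {s w : ℂ} (hs : s ^ 3 = s ^ 2 + 2 * s - 1) (hw : w ^ 2 = -1 - w) (X Y : M3) :
    ev s w (mul X Y) = ev s w X * ev s w Y := by
  ext i j
  simp only [ev, mul, Matrix.mul_apply, Fin.sum_univ_three, R6.ev_add, R6.ev_mul hs hw]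

end M3

/-- the entries `2 ⟨e k, e j⟩` of the Gram matrix -/
def bm : Fin 3 → Fin 3 → R6 :=
  ![![⟨2, 0, 0, 0, 0, 0⟩, ⟨-1, 0, 1, 1, 0, 0⟩, ⟨-1, 0, 1, -2, 0, 1⟩],
    ![⟨-2, 0, 1, -1, 0, 0⟩, ⟨2, 0, 0, 0, 0, 0⟩, ⟨-1, 0, 1, 1, 0, 0⟩],
    ![⟨1, 0, 0, 2, 0, -1⟩, ⟨-2, 0, 1, -1, 0, 0⟩, ⟨2, 0, 0, 0, 0, 0⟩]]

/-- the matrix of the reflection in `e j`, in the basis `e` -/
def XR (j : Fin 3) : M3 := fun l k =>
  (if l = k then (⟨-1, 0, 0, 0, 0, 0⟩ : R6) else 0) + (if l = j then bm k j else 0)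

def pow2 (X : M3) : M3 := M3.mul X X

/-- `X ^ 14` -/
def pow14 (X : M3) : M3 :=
  let X2 := M3.mul X X
  let X4 := M3.mul X2 X2
  let X8 := M3.mul X4 X4
  M3.mul (M3.mul X8 X4) X2

theorem rot_pow : ∀ i j : Fin 3, i ≠ j → pow14 (M3.mul (XR i) (XR j)) = M3.one := by
  decide +kernel

def XB : M3 := M3.mul (M3.mul (XR 0) (XR 1)) (XR 2)



end Pool.Agent.X186.TG
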