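import Pool.Agent.X186.TG.Defs
import Pool.Agent.X186.TG.Ring

/-!
# Reflections for Hermitian forms on `ℂ³`
-/

set_option autoImplicit false

open Matrix Complex

namespace Pool.Agent.X186.TG

/-- signs -/
noncomputable def sg (ε : ℝ) : Fin 3 → ℂ := ![1, 1, ε]

/-- the form with signs `1, 1, ε` -/
noncomputable def form (ε : ℝ) (x y : Fin 3 → ℂ) : ℂ :=
  x 0 * star (y 0) + x 1 * star (y 1) + ε * (x 2 * star (y 2))

theorem herm_eq (x y : Fin 3 → ℂ) : herm x y = form (-1) x y := by
  simp only [herm, form]; push_cast; ring

section
variable (ε : ℝ) (x y z : Fin 3 → ℂ) (c : ℂ)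

theorem form_add_left : form ε (x + y) z = form ε x z + form ε y z := by
  simp only [form, Pi.add_apply]; ring

theorem form_sub_left : form ε (x - y) z = form ε x z - form ε y z := by
  simp only [form, Pi.sub_apply]; ring

theorem form_neg_left : form ε (-x) z = -form ε x z := by
  simp only [form, Pi.neg_apply]; ring

theorem form_smul_left : form ε (c • x) z = c * form ε x z := by
  simp only [form, Pi.smul_apply, smul_eq_mul]; ring

theorem form_add_right : form ε x (y + z) = form ε x y + form ε x z := by
  simp only [form, Pi.add_apply, star_add]; ring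

theorem form_sub_right : form ε x (y - z) = form ε x y - form ε x z := by
  simp only [form, Pi.sub_apply, star_sub]; ring

theorem form_neg_right : form ε x (-y) = -form ε x y := by
  simp only [form, Pi.neg_apply, star_neg]; ring

theorem form_smul_right : form ε x (c • y) = star c * form ε x y := by
  simp only [form, Pi.smul_apply, smul_eq_mul, star_mul']; ring

theorem star_form : star (form ε x y) = form ε y x := by
  simp only [form, star_add, star_mul', star_star]
  have : star (ε : ℂ) = ε := by simp
  rw [this]; ring

theorem form_self_im : (form ε x x).im = 0 := by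
  have h := star_form ε x x
  rw [Complex.star_def, Complex.conj_eq_iff_im] at h
  exact h

end

/-- the matrix of the reflection `x ↦ -x + 2 ⟨x, f⟩ f` -/
noncomputable def rmat (ε : ℝ) (f : Fin 3 → ℂ) : Matrix (Fin 3) (Fin 3) ℂ := fun l m =>
  (if l = m then -1 else 0) + 2 * f l * star (f m) * sg ε m

theorem rmat_mulVec (ε : ℝ) (f x : Fin 3 → ℂ) :
    rmat ε f *ᵥ x = -x + (2 * form ε x f) • f := by
  ext l
  simp only [mulVec, dotProduct, rmat, Fin.sum_univ_three, Pi.add_apply, Pi.neg_apply,
    Pi.smul_apply, smul_eq_mul, form, sg]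
  fin_cases l <;> simp <;> ring

theorem form_refl {ε : ℝ} {f : Fin 3 → ℂ} (hf : form ε f f = 1) (x y : Fin 3 → ℂ) :
    form ε (rmat ε f *ᵥ x) (rmat ε f *ᵥ y) = form ε x y := by
  rw [rmat_mulVec, rmat_mulVec]
  simp only [form_add_left, form_add_right, form_neg_left, form_neg_right, form_smul_left,
    form_smul_right, star_mul', hf, star_form]
  have : star (2 : ℂ) = 2 := by simp
  rw [this]; ring

theorem mat_ext {A B : Matrix (Fin 3) (Fin 3) ℂ} (h : ∀ x, A *ᵥ x = B *ᵥ x) : A = B := by
  ext i j
  have := congrFun (h (Pi.single j 1)) i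
  simpa using this

theorem rmat_sq {ε : ℝ} {f : Fin 3 → ℂ} (hf : form ε f f = 1) : rmat ε f * rmat ε f = 1 := by
  apply mat_ext
  intro x
  rw [← mulVec_mulVec, one_mulVec, rmat_mulVec, rmat_mulVec]
  simp only [form_add_left, form_neg_left, form_smul_left, hf]
  ext i
  simp only [Pi.add_apply, Pi.neg_apply, Pi.smul_apply, smul_eq_mul]
  ring

/-- **Realization of a Gram matrix.** -/
theorem gram (u v w : ℂ) (ε : ℝ) (hε : ε = 1 ∨ ε = -1) (hu : normSq u < 1)
    (hD : 0 < ε * (1 + 2 * (u * v * w).re - normSq u - normSq v - normSq w)) :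
    ∃ e : Fin 3 → Fin 3 → ℂ, LinearIndependent ℂ e ∧ (∀ k, form ε (e k) (e k) = 1) ∧
      form ε (e 0) (e 1) = u ∧ form ε (e 1) (e 2) = v ∧ form ε (e 2) (e 0) = w := by
  set D := 1 + 2 * (u * v * w).re - normSq u - normSq v - normSq w with hDdef
  have hn2 : 0 < 1 - normSq u := by linarith
  set n : ℝ := Real.sqrt (1 - normSq u) with hn
  have hnpos : 0 < n := Real.sqrt_pos.mpr hn2
  have hnn : n * n = 1 - normSq u := Real.mul_self_sqrt hn2.le
  set z : ℝ := Real.sqrt (ε * D / (1 - normSq u)) with hz
  have hzpos : 0 < z := Real.sqrt_pos.mpr (div_pos hD hn2)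
  have hzz : z * z = ε * D / (1 - normSq u) := Real.mul_self_sqrt (div_pos hD hn2).le
  have hee : ε * ε = 1 := by rcases hε with h | h <;> rw [h] <;> norm_num
  set y : ℂ := (star v - u * w) / n with hy
  have hnc : (n : ℂ) ≠ 0 := by exact_mod_cast hnpos.ne'
  have hzc : (z : ℂ) ≠ 0 := by exact_mod_cast hzpos.ne'
  let e : Fin 3 → Fin 3 → ℂ := ![![1, 0, 0], ![star u, n, 0], ![w, y, z]]
  have hnu : (normSq u : ℂ) = u * star u := by rw [Complex.star_def, Complex.mul_conj]
  have hnv : (normSq v : ℂ) = v * star v := by rw [Complex.star_def, Complex.mul_conj]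
  have hnw : (normSq w : ℂ) = w * star w := by rw [Complex.star_def, Complex.mul_conj]
  have hsn : star (n : ℂ) = n := by simp
  have hsz : star (z : ℂ) = z := by simp
  have hnn' : (n : ℂ) * n = 1 - u * star u := by
    rw [← hnu]; exact_mod_cast hnn
  refine ⟨e, ?_, ?_, ?_, ?_, ?_⟩
  · rw [Fintype.linearIndependent_iff]
    intro g hg
    rw [Fin.sum_univ_three] at hg
    have h2 := congrFun hg 2
    have h1 := congrFun hg 1
    have h0 := congrFun hg 0
    simp [e] at h0 h1 h2
    have g2 : g 2 = 0 := h2.resolve_right hzpos.ne'
    rw [g2] at h1 h0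
    have g1 : g 1 = 0 := by
      simp at h1
      exact h1.resolve_right hnpos.ne'
    rw [g1] at h0
    have g0 : g 0 = 0 := by simpa using h0
    intro i
    fin_cases i
    · exact g0
    · exact g1
    · exact g2
  · intro k
    fin_cases k
    · simp [form, e]
    · show form ε ![star u, n, 0] ![star u, n, 0] = 1
      simp only [form, Matrix.cons_val_zero, Matrix.cons_val_one, Matrix.cons_val_two,
        Matrix.head_cons, Matrix.tail_cons, star_star, star_zero, hsn]
      linear_combination hnn'
    · show form ε ![w, y, z] ![w, y, z] = 1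
      simp only [form, Matrix.cons_val_zero, Matrix.cons_val_one, Matrix.cons_val_two,
        Matrix.head_cons, Matrix.tail_cons, hsz]
      have hyy : y * star y = (normSq (star v - u * w) : ℂ) / (1 - u * star u) := by
        rw [hy, star_div₀, hsn, div_mul_div_comm, hnn', Complex.star_def, Complex.mul_conj]
      have hzz' : ((z : ℂ) * z) = ε * D / (1 - u * star u) := by
        rw [← hnu]
        have := congrArg (fun t : ℝ => (t : ℂ)) hzz
        push_cast at this
        exact this
      have hne : (1 - u * star u : ℂ) ≠ 0 := by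
        rw [← hnn']; exact mul_ne_zero hnc hnc
      have hns : (normSq (star v - u * w) : ℂ) =
          (star v - u * w) * (v - star u * star w) := by
        rw [← Complex.mul_conj, ← Complex.star_def, star_sub, star_star, star_mul']
      have hDc : (D : ℂ) = 1 + (u * v * w + star u * star v * star w) - u * star u - v * star v -
          w * star w := by
        rw [hDdef, ← hnu, ← hnv, ← hnw]
        push_cast
        have : ((2 : ℂ) * ((u * v * w).re : ℂ)) = u * v * w + star u * star v * star w := by
          have h3 : star u * star v * star w = star (u * v * w) := by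
            rw [star_mul', star_mul']
          rw [h3, Complex.star_def, Complex.add_conj]
          push_cast
          ring
        rw [← this]
      have hεc : (ε : ℂ) * ε = 1 := by exact_mod_cast hee
      rw [hyy, hzz', hns]
      field_simp
      rw [hDc]
      linear_combination (1 + (u * v * w + star u * star v * star w) - u * star u - v * star v -
          w * star w) * hεc
  · show form ε ![1, 0, 0] ![star u, n, 0] = u
    simp [form]
  · show form ε ![star u, n, 0] ![w, y, z] = v
    simp only [form, Matrix.cons_val_zero, Matrix.cons_val_one, Matrix.cons_val_two,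
        Matrix.head_cons, Matrix.tail_cons]
    rw [hy, star_div₀, hsn, star_sub, star_star, star_mul']
    field_simp
    ring
  · show form ε ![w, y, z] ![1, 0, 0] = w
    simp [form]

end Pool.Agent.X186.TG
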