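import Pool.Agent.X186.TG.Fin

/-!
# The representation
-/

set_option autoImplicit false

open Matrix Complex

namespace Pool.Agent.X186.TG

/-- the chosen vectors at the place `i` -/
noncomputable def ve (i : Fin 3) : Fin 3 → Fin 3 → ℂ := (exists_place i).choose

theorem ve_indep (i : Fin 3) : LinearIndependent ℂ (ve i) := (exists_place i).choose_spec.1

theorem ve_form (i k j : Fin 3) :
    2 * form (es i) (ve i k) (ve i j) = R6.ev (sv i) om (bm k j) :=
  (exists_place i).choose_spec.2 k j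

theorem bm_diag : ∀ k : Fin 3, bm k k = ⟨2, 0, 0, 0, 0, 0⟩ := by decide +kernel

theorem ve_self (i k : Fin 3) : form (es i) (ve i k) (ve i k) = 1 := by
  have h := ve_form i k k
  rw [bm_diag k] at h
  have h2 : R6.ev (sv i) om ⟨2, 0, 0, 0, 0, 0⟩ = 2 := by simp [R6.ev]
  rw [h2] at h
  linear_combination h / 2

/-- the matrix with columns `ve i` -/
noncomputable def PM (i : Fin 3) : Matrix (Fin 3) (Fin 3) ℂ := fun l k => ve i k l

theorem PM_isUnit (i : Fin 3) : IsUnit (PM i) := by
  have h := ve_indep i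
  have h2 : IsUnit ((PM i)ᵀ) := by
    rw [← Matrix.linearIndependent_rows_iff_isUnit]
    exact h
  exact (Matrix.isUnit_transpose _).mp h2

theorem PM_mulVec (i : Fin 3) (x : Fin 3 → ℂ) :
    PM i *ᵥ x = x 0 • ve i 0 + x 1 • ve i 1 + x 2 • ve i 2 := by
  ext l
  simp only [mulVec, dotProduct, PM, Fin.sum_univ_three, Pi.add_apply, Pi.smul_apply, smul_eq_mul]
  ring

/-- `R_j P = P X_j` -/
theorem rmat_PM (i j : Fin 3) :
    rmat (es i) (ve i j) * PM i = PM i * M3.ev (sv i) om (XR j) := by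
  ext l k
  have h1 : (rmat (es i) (ve i j) * PM i) l k = (rmat (es i) (ve i j) *ᵥ ve i k) l := by
    simp only [Matrix.mul_apply, mulVec, dotProduct, PM]
  rw [h1, rmat_mulVec]
  simp only [Pi.add_apply, Pi.neg_apply, Pi.smul_apply, smul_eq_mul, ve_form]
  rw [Matrix.mul_apply, Fin.sum_univ_three]
  have h2 : ∀ m : Fin 3, M3.ev (sv i) om (XR j) m k =
      (if m = k then (-1 : ℂ) else 0) + (if m = j then R6.ev (sv i) om (bm k j) else 0) := by
    intro m
    simp only [M3.ev, XR, R6.ev_add]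
    congr 1
    · split_ifs
      · simp [R6.ev]
      · exact R6.ev_zero _ _
    · split_ifs
      · rfl
      · exact R6.ev_zero _ _
  rw [h2, h2, h2]
  simp only [PM]
  fin_cases k <;> fin_cases j <;> simp <;> ring

/-- reflections as elements of `U(2, 1)` -/
noncomputable def RU (e : Fin 3 → ℂ) (he : form (-1) e e = 1) : U21 :=
  ⟨⟨rmat (-1) e, rmat (-1) e, rmat_sq he, rmat_sq he⟩, fun x y => by
    rw [herm_eq, herm_eq]
    exact form_refl he x y⟩

theorem RU_val (e : Fin 3 → ℂ) (he : form (-1) e e = 1) : (RU e he).1.1 = rmat (-1) e := rfl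

theorem es0 : es 0 = -1 := by simp [es]

theorem ve0_self (k : Fin 3) : form (-1) (ve 0 k) (ve 0 k) = 1 := by
  have := ve_self 0 k
  rwa [es0] at this

/-- the three reflections -/
noncomputable def rr (k : Fin 3) : U21 := RU (ve 0 k) (ve0_self k)

theorem U21_ext {A B : U21} (h : A.1.1 = B.1.1) : A = B := Subtype.ext (Units.ext h)

theorem rr_sq (k : Fin 3) : rr k * rr k = 1 := U21_ext (rmat_sq (ve0_self k))

theorem ev_pow14 (i : Fin 3) (X : M3) :
    M3.ev (sv i) om (pow14 X) = (M3.ev (sv i) om X) ^ 14 := by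
  simp only [pow14, M3.ev_mul (sv_cubicC i) om_sq]
  simp only [← pow_two, ← pow_mul, ← pow_add]
  norm_num

/-- intertwining is stable under powers -/
theorem pow_inter {A P Y : Matrix (Fin 3) (Fin 3) ℂ} (h : A * P = P * Y) (n : ℕ) :
    A ^ n * P = P * Y ^ n := by
  induction n with
  | zero => simp
  | succ n ih => rw [pow_succ, Matrix.mul_assoc, h, ← Matrix.mul_assoc, ih, Matrix.mul_assoc,
      ← pow_succ]

theorem cancel_PM {i : Fin 3} {A B : Matrix (Fin 3) (Fin 3) ℂ} (h : A * PM i = B * PM i) :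
    A = B := by
  obtain ⟨u, hu⟩ := PM_isUnit i
  rw [← hu] at h
  exact (Units.mul_left_inj u).mp h

theorem mul_inter {A B P Y Z : Matrix (Fin 3) (Fin 3) ℂ} (h : A * P = P * Y) (h' : B * P = P * Z) :
    (A * B) * P = P * (Y * Z) := by
  rw [Matrix.mul_assoc, h', ← Matrix.mul_assoc, h, Matrix.mul_assoc]

theorem rr_inter (k : Fin 3) : (rr k).1.1 * PM 0 = PM 0 * M3.ev (sv 0) om (XR k) := by
  have := rmat_PM 0 k
  rwa [es0] at this

theorem rr_rot (i j : Fin 3) (hij : i ≠ j) : (rr i * rr j) ^ 14 = 1 := by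
  apply U21_ext
  have h1 : (((rr i * rr j) ^ 14 : U21)).1.1 = ((rr i).1.1 * (rr j).1.1) ^ 14 := by
    simp [Subgroup.coe_mul, Units.val_mul]
  rw [h1]
  apply cancel_PM (i := 0)
  rw [pow_inter (mul_inter (rr_inter i) (rr_inter j)), ← M3.ev_mul (sv_cubicC 0) om_sq, ← ev_pow14,
    rot_pow i j hij, M3.ev_one]
  simp

/-- the Coxeter matrix with all off-diagonal entries equal to `14` -/
def M14 : CoxeterMatrix (Fin 3) where
  M := Matrix.of fun i j => if i = j then 1 else 14
  isSymm := by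
    ext i j
    simp [Matrix.transpose_apply, eq_comm]
  diagonal := by simp
  off_diagonal := by
    intro i j hij
    simp [hij]

theorem M14_ne (i j : Fin 3) (h : i ≠ j) : M14 i j = 14 := by
  show (if i = j then 1 else 14) = 14
  rw [if_neg h]

theorem M14_self (i : Fin 3) : M14 i i = 1 := by
  show (if i = i then 1 else 14) = 1
  rw [if_pos rfl]

theorem liftable : M14.IsLiftable (fun k => (rr k : PU21)) := by
  intro i j
  by_cases h : i = j
  · subst h
    rw [M14_self, pow_one, ← QuotientGroup.mk_mul, rr_sq, QuotientGroup.mk_one]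
  · rw [M14_ne i j h, ← QuotientGroup.mk_mul, ← QuotientGroup.mk_pow, rr_rot i j h,
      QuotientGroup.mk_one]

/-- the representation -/
noncomputable def rho : M14.Group →* PU21 :=
  M14.toCoxeterSystem.lift ⟨fun k => (rr k : PU21), liftable⟩

theorem rho_simple (k : Fin 3) : rho (M14.simple k) = (rr k : PU21) := by
  have := M14.toCoxeterSystem.lift_apply_simple liftable k
  simpa [rho] using this

/-- lifts with integral matrices -/
def Good (g : PU21) : Prop :=
  ∃ (B : U21) (X : M3), (B : PU21) = g ∧ B.1.1 * PM 0 = PM 0 * M3.ev (sv 0) om X ∧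
    ∀ i : Fin 3, i ≠ 0 → ∃ C : Matrix (Fin 3) (Fin 3) ℂ,
      (∀ x y, form 1 (C *ᵥ x) (C *ᵥ y) = form 1 x y) ∧ C * PM i = PM i * M3.ev (sv i) om X

theorem good_one : Good 1 := by
  refine ⟨1, M3.one, rfl, ?_, fun i _ => ⟨1, ?_, ?_⟩⟩
  · rw [M3.ev_one]; simp
  · intro x y; simp
  · rw [M3.ev_one]; simp

theorem good_mul {g h : PU21} (hg : Good g) (hh : Good h) : Good (g * h) := by
  obtain ⟨B, X, h1, h2, h3⟩ := hg
  obtain ⟨B', X', h1', h2', h3'⟩ := hh
  refine ⟨B * B', M3.mul X X', ?_, ?_, fun i hi => ?_⟩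
  · rw [QuotientGroup.mk_mul, h1, h1']
  · rw [M3.ev_mul (sv_cubicC 0) om_sq]
    exact mul_inter h2 h2'
  · obtain ⟨C, a, b⟩ := h3 i hi
    obtain ⟨C', a', b'⟩ := h3' i hi
    refine ⟨C * C', ?_, ?_⟩
    · intro x y
      rw [← mulVec_mulVec, ← mulVec_mulVec, a, a']
    · rw [M3.ev_mul (sv_cubicC i) om_sq]
      exact mul_inter b b'

theorem good_rr (k : Fin 3) : Good (rr k : PU21) := by
  refine ⟨rr k, XR k, rfl, rr_inter k, fun i hi => ⟨rmat 1 (ve i k), ?_, ?_⟩⟩
  · have h : form 1 (ve i k) (ve i k) = 1 := by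
      have := ve_self i k
      rwa [es, if_neg hi] at this
    exact form_refl h
  · have := rmat_PM i k
    rwa [es, if_neg hi] at this

theorem good_rho (g : M14.Group) : Good (rho g) := by
  refine M14.toCoxeterSystem.simple_induction g (p := fun g => Good (rho g)) ?_ ?_ ?_
  · intro i
    rw [CoxeterMatrix.toCoxeterSystem_simple, rho_simple]
    exact good_rr i
  · rw [map_one]
    exact good_one
  · intro a b ha hb
    rw [map_mul]
    exact good_mul ha hb

end Pool.Agent.X186.TG
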