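import Pool.Agent.X186.TG.Geo

/-!
# The three places
-/

set_option autoImplicit false

open Matrix Complex

namespace Pool.Agent.X186.TG

theorem cubic_of_cos (θ : ℝ) (h : Real.cos (4 * θ) = -Real.cos (3 * θ)) (hne : Real.cos θ ≠ -1) :
    (2 * Real.cos θ) ^ 3 = (2 * Real.cos θ) ^ 2 + 2 * (2 * Real.cos θ) - 1 := by
  have h4 : Real.cos (4 * θ) = 8 * Real.cos θ ^ 4 - 8 * Real.cos θ ^ 2 + 1 := by
    rw [show 4 * θ = 2 * (2 * θ) by ring, Real.cos_two_mul, Real.cos_two_mul]
    ring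
  have h3 : Real.cos (3 * θ) = 4 * Real.cos θ ^ 3 - 3 * Real.cos θ := Real.cos_three_mul θ
  rw [h4, h3] at h
  have h5 : (Real.cos θ + 1) * (8 * Real.cos θ ^ 3 - 4 * Real.cos θ ^ 2 - 4 * Real.cos θ + 1) = 0 := by
    linear_combination h
  have h6 : Real.cos θ + 1 ≠ 0 := fun h => hne (by linarith)
  have h7 := (mul_eq_zero.mp h5).resolve_left h6
  linear_combination h7

/-- the real numbers `2 cos ((2 i + 1) π / 7)` -/
noncomputable def sv : Fin 3 → ℝ :=
  ![2 * Real.cos (Real.pi / 7), 2 * Real.cos (3 * Real.pi / 7), 2 * Real.cos (5 * Real.pi / 7)]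

theorem cos_lt {a b : ℝ} (h0 : 0 ≤ a) (h : a < b) (h1 : b ≤ Real.pi) : Real.cos b < Real.cos a :=
  Real.strictAntiOn_cos ⟨h0, by linarith⟩ ⟨by linarith, h1⟩ h

theorem sv_cubic (i : Fin 3) : sv i ^ 3 = sv i ^ 2 + 2 * sv i - 1 := by
  have hp := Real.pi_pos
  have aux : ∀ θ : ℝ, 0 ≤ θ → θ < Real.pi → Real.cos θ ≠ -1 := by
    intro θ h0 h1 h
    have := cos_lt h0 h1 le_rfl
    rw [Real.cos_pi, h] at this
    exact lt_irrefl _ this
  fin_cases i
  · refine cubic_of_cos _ ?_ (aux _ (by positivity) (by linarith))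
    rw [show 4 * (Real.pi / 7) = Real.pi - 3 * (Real.pi / 7) by ring, Real.cos_pi_sub]
  · refine cubic_of_cos _ ?_ (aux _ (by positivity) (by linarith))
    rw [show 4 * (3 * Real.pi / 7) = Real.pi - 3 * (3 * Real.pi / 7) + 2 * Real.pi by ring,
      Real.cos_add_two_pi, Real.cos_pi_sub]
  · refine cubic_of_cos _ ?_ (aux _ (by positivity) (by linarith))
    rw [show 4 * (5 * Real.pi / 7) = Real.pi - 3 * (5 * Real.pi / 7) + 2 * Real.pi + 2 * Real.pi by
      ring, Real.cos_add_two_pi, Real.cos_add_two_pi, Real.cos_pi_sub]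

theorem sv0_sq : 3 < sv 0 ^ 2 := by
  have hp := Real.pi_pos
  have h : Real.cos (Real.pi / 6) < Real.cos (Real.pi / 7) :=
    cos_lt (by positivity) (by linarith) (by linarith)
  rw [Real.cos_pi_div_six] at h
  have h3 : Real.sqrt 3 < sv 0 := by
    show Real.sqrt 3 < 2 * Real.cos (Real.pi / 7)
    linarith
  calc (3 : ℝ) = Real.sqrt 3 ^ 2 := (Real.sq_sqrt (by norm_num)).symm
    _ < sv 0 ^ 2 := by
      apply pow_lt_pow_left₀ h3 (Real.sqrt_nonneg _) (by norm_num)

theorem sv_lt_two (i : Fin 3) : sv i < 2 := by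
  have hp := Real.pi_pos
  have aux : ∀ θ : ℝ, 0 < θ → θ ≤ Real.pi → 2 * Real.cos θ < 2 := by
    intro θ h0 h1
    have := cos_lt le_rfl h0 h1
    rw [Real.cos_zero] at this
    linarith
  fin_cases i
  · exact aux _ (by positivity) (by linarith)
  · exact aux _ (by positivity) (by linarith)
  · exact aux _ (by positivity) (by linarith)

theorem sv0_gt : 1 < sv 0 := by
  have hp := Real.pi_pos
  have h : Real.cos (Real.pi / 3) < Real.cos (Real.pi / 7) :=
    cos_lt (by positivity) (by linarith) (by linarith)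
  rw [Real.cos_pi_div_three] at h
  show 1 < 2 * Real.cos (Real.pi / 7)
  linarith

theorem sv1_lt : sv 1 < 1 := by
  have hp := Real.pi_pos
  have h : Real.cos (3 * Real.pi / 7) < Real.cos (Real.pi / 3) :=
    cos_lt (by positivity) (by linarith) (by linarith)
  rw [Real.cos_pi_div_three] at h
  show 2 * Real.cos (3 * Real.pi / 7) < 1
  linarith

theorem sv21 : sv 2 < sv 1 := by
  have hp := Real.pi_pos
  have h : Real.cos (5 * Real.pi / 7) < Real.cos (3 * Real.pi / 7) :=
    cos_lt (by positivity) (by linarith) (by linarith)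
  show 2 * Real.cos (5 * Real.pi / 7) < 2 * Real.cos (3 * Real.pi / 7)
  linarith

/-- a primitive cube root of unity -/
noncomputable def om : ℂ := ⟨-1 / 2, -(Real.sqrt 3 / 2)⟩

theorem om_sq : om ^ 2 = -1 - om := by
  have h3 : Real.sqrt 3 * Real.sqrt 3 = 3 := Real.mul_self_sqrt (by norm_num)
  rw [sq]
  apply Complex.ext
  · simp [om, Complex.mul_re]
    nlinarith
  · simp [om, Complex.mul_im]
    ring

theorem star_om : star om = -1 - om := by
  apply Complex.ext
  · simp [om]; norm_num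
  · simp [om]

/-- conjugation -/
def R6.cj (x : R6) : R6 := ⟨x.a0 - x.b0, x.a1 - x.b1, x.a2 - x.b2, -x.b0, -x.b1, -x.b2⟩

theorem star_ev (s : ℝ) (x : R6) : star (R6.ev s om x) = R6.ev s om x.cj := by
  simp only [R6.ev, R6.cj, star_add, star_mul', star_om, star_pow]
  have h1 : ∀ n : ℤ, star (n : ℂ) = n := fun n => by simp
  have h2 : star (s : ℂ) = s := by simp
  simp only [h1, h2]
  push_cast
  ring

theorem bm_cj : ∀ k j : Fin 3, (bm k j).cj = bm j k := by decide +kernel

theorem om_ne : om ≠ 0 := by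
  intro h
  have := congrArg Complex.re h
  simp [om] at this

theorem norm_om : ‖om‖ = 1 := by
  have h : om * star om = 1 := by
    rw [star_om]
    linear_combination -om_sq
  have h2 : ‖om‖ * ‖om‖ = 1 := by
    have := congrArg (fun z : ℂ => ‖z‖) h
    simpa using this
  nlinarith [norm_nonneg om]

/-- the signs of the forms -/
noncomputable def es (i : Fin 3) : ℝ := if i = 0 then -1 else 1

theorem sv_cubicC (i : Fin 3) : (sv i : ℂ) ^ 3 = (sv i : ℂ) ^ 2 + 2 * (sv i : ℂ) - 1 := by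
  exact_mod_cast sv_cubic i

theorem ev_bm_norm (i : Fin 3) (k j : Fin 3) (h : k ≠ j) :
    normSq (R6.ev (sv i) om (bm k j) / 2) = (2 + sv i) / 4 := by
  have key : ∀ k j : Fin 3, k ≠ j → bm k j * bm j k = ⟨2, 1, 0, 0, 0, 0⟩ := by decide +kernel
  have h1 : (normSq (R6.ev (sv i) om (bm k j)) : ℂ) = 2 + sv i := by
    rw [← Complex.mul_conj, ← Complex.star_def, star_ev, bm_cj,
      ← R6.ev_mul (sv_cubicC i) om_sq, key k j h]
    simp [R6.ev]
  have h2 : normSq (R6.ev (sv i) om (bm k j)) = 2 + sv i := by exact_mod_cast h1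
  rw [Complex.normSq_div, h2]
  norm_num

theorem triple_re (i : Fin 3) :
    ((R6.ev (sv i) om (bm 0 1) / 2) * (R6.ev (sv i) om (bm 1 2) / 2) *
      (R6.ev (sv i) om (bm 2 0) / 2)).re = 5 / 16 * (1 + sv i) := by
  have key : bm 0 1 * bm 1 2 * bm 2 0 = ⟨3, 3, 0, 1, 1, 0⟩ := by decide +kernel
  have h : (R6.ev (sv i) om (bm 0 1) / 2) * (R6.ev (sv i) om (bm 1 2) / 2) *
      (R6.ev (sv i) om (bm 2 0) / 2) = ((1 + sv i : ℝ) : ℂ) * (3 + om) / 8 := by
    have : R6.ev (sv i) om (bm 0 1) * R6.ev (sv i) om (bm 1 2) * R6.ev (sv i) om (bm 2 0) =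
        (1 + sv i) * (3 + om) := by
      rw [← R6.ev_mul (sv_cubicC i) om_sq, ← R6.ev_mul (sv_cubicC i) om_sq, key]
      simp [R6.ev]
      ring
    push_cast
    linear_combination this / 8
  rw [h]
  simp [om]
  ring

theorem exists_place (i : Fin 3) :
    ∃ e : Fin 3 → Fin 3 → ℂ, LinearIndependent ℂ e ∧
      ∀ k j, 2 * form (es i) (e k) (e j) = R6.ev (sv i) om (bm k j) := by
  obtain ⟨e, h0, h1, h2, h3, h4⟩ := gram (R6.ev (sv i) om (bm 0 1) / 2)
    (R6.ev (sv i) om (bm 1 2) / 2) (R6.ev (sv i) om (bm 2 0) / 2) (es i)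
    (by unfold es; split_ifs <;> simp)
    (by rw [ev_bm_norm i 0 1 (by decide)]; linarith [sv_lt_two i])
    (by
      rw [ev_bm_norm i 0 1 (by decide), ev_bm_norm i 1 2 (by decide), ev_bm_norm i 2 0 (by decide),
        triple_re]
      have h : 1 + 2 * (5 / 16 * (1 + sv i)) - (2 + sv i) / 4 - (2 + sv i) / 4 - (2 + sv i) / 4 =
          (1 - sv i) / 8 := by ring
      rw [h]
      fin_cases i
      · have := sv0_gt
        simp only [es, Fin.zero_eta, if_true]
        linarith
      · have := sv1_lt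
        simp only [es, Fin.mk_one, one_ne_zero, if_false]
        linarith
      · have := sv1_lt
        have := sv21
        have h2 : (2 : Fin 3) ≠ 0 := by decide
        simp only [es, Fin.reduceFinMk, h2, if_false]
        linarith)
  have hd : ∀ k : Fin 3, R6.ev (sv i) om (bm k k) = 2 := by
    intro k
    have : bm k k = ⟨2, 0, 0, 0, 0, 0⟩ := by revert k; decide +kernel
    rw [this]
    simp [R6.ev]
  have hs : ∀ k j : Fin 3, 2 * form (es i) (e k) (e j) = R6.ev (sv i) om (bm k j) →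
      2 * form (es i) (e j) (e k) = R6.ev (sv i) om (bm j k) := by
    intro k j h
    have := congrArg star h
    rw [star_mul', star_form, star_ev, bm_cj] at this
    simpa using this
  refine ⟨e, h0, ?_⟩
  have a01 : 2 * form (es i) (e 0) (e 1) = R6.ev (sv i) om (bm 0 1) := by rw [h2]; ring
  have a12 : 2 * form (es i) (e 1) (e 2) = R6.ev (sv i) om (bm 1 2) := by rw [h3]; ring
  have a20 : 2 * form (es i) (e 2) (e 0) = R6.ev (sv i) om (bm 2 0) := by rw [h4]; ring
  intro k j
  fin_cases k <;> fin_cases j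
  · show 2 * form (es i) (e 0) (e 0) = R6.ev (sv i) om (bm 0 0)
    rw [h1, hd]; norm_num
  · exact a01
  · exact hs _ _ a20
  · exact hs _ _ a01
  · show 2 * form (es i) (e 1) (e 1) = R6.ev (sv i) om (bm 1 1)
    rw [h1, hd]; norm_num
  · exact a12
  · exact a20
  · exact hs _ _ a12
  · show 2 * form (es i) (e 2) (e 2) = R6.ev (sv i) om (bm 2 2)
    rw [h1, hd]; norm_num

end Pool.Agent.X186.TG
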