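import Pool.Agent.X186.TG.Ell

/-!
# Type B
-/

set_option autoImplicit false

open Matrix Complex Topology

namespace Pool.Agent.X186.TG

theorem form_self (x : Fin 3 → ℂ) :
    (form (-1) x x).re = ‖x 0‖ ^ 2 + ‖x 1‖ ^ 2 - ‖x 2‖ ^ 2 := by
  have h : form (-1) x x = ((‖x 0‖ ^ 2 + ‖x 1‖ ^ 2 - ‖x 2‖ ^ 2 : ℝ) : ℂ) := by
    simp only [form, Complex.star_def, Complex.mul_conj, Complex.normSq_eq_norm_sq]
    push_cast
    ring
  rw [h, Complex.ofReal_re]

theorem orth_neg {p z : Fin 3 → ℂ} (hp : (form (-1) p p).re < 0) (hz : form (-1) z p = 0) :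
    0 ≤ (form (-1) z z).re := by
  rw [form_self] at hp ⊢
  by_contra hneg
  push Not at hneg
  have h1 : z 2 * star (p 2) = z 0 * star (p 0) + z 1 * star (p 1) := by
    simp only [form] at hz
    push_cast at hz
    linear_combination -hz
  have h2 : ‖z 2‖ * ‖p 2‖ ≤ ‖z 0‖ * ‖p 0‖ + ‖z 1‖ * ‖p 1‖ := by
    have h3 := norm_add_le (z 0 * star (p 0)) (z 1 * star (p 1))
    rw [← h1] at h3
    simpa only [norm_mul, norm_star] using h3
  have a0 := norm_nonneg (z 0)
  have a1 := norm_nonneg (z 1)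
  have a2 := norm_nonneg (z 2)
  have b0 := norm_nonneg (p 0)
  have b1 := norm_nonneg (p 1)
  have b2 := norm_nonneg (p 2)
  set A0 := ‖z 0‖
  set A1 := ‖z 1‖
  set A2 := ‖z 2‖
  set B0 := ‖p 0‖
  set B1 := ‖p 1‖
  set B2 := ‖p 2‖
  have h4 : (A0 * B0 + A1 * B1) ^ 2 ≤ (A0 ^ 2 + A1 ^ 2) * (B0 ^ 2 + B1 ^ 2) := by
    nlinarith [sq_nonneg (A0 * B1 - A1 * B0)]
  have h5 : (A2 * B2) ^ 2 ≤ (A0 * B0 + A1 * B1) ^ 2 := by
    apply pow_le_pow_left₀ (by positivity) h2
  have h6 : (A0 ^ 2 + A1 ^ 2) * (B0 ^ 2 + B1 ^ 2) < A2 ^ 2 * B2 ^ 2 := by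
    apply mul_lt_mul'' (by linarith) (by linarith) (by positivity) (by positivity)
  nlinarith

theorem refl_nonexp {e0 e1 e2 v : Fin 3 → ℂ} {A0 A1 A2 : U21}
    (h0 : form (-1) e0 e0 = 1) (h1 : form (-1) e1 e1 = 1) (h2 : form (-1) e2 e2 = 1)
    (hA0 : ∀ x, A0.1.1 *ᵥ x = -x + (2 * form (-1) x e0) • e0)
    (hA1 : ∀ x, A1.1.1 *ᵥ x = -x + (2 * form (-1) x e1) • e1)
    (hA2 : ∀ x, A2.1.1 *ᵥ x = -x + (2 * form (-1) x e2) • e2)
    (hv : (form (-1) v v).re < 0) (c : ℂ)
    (hc : (A0 * A1 * A2 * A1).1.1 *ᵥ v = c • v) :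
    normSq (form (-1) e0 (-e2 + (2 * form (-1) e2 e1) • e1)) ≤ 1 := by
  have inv : ∀ (A : U21) (e : Fin 3 → ℂ), form (-1) e e = 1 →
      (∀ x, A.1.1 *ᵥ x = -x + (2 * form (-1) x e) • e) → ∀ x, A.1.1 *ᵥ (A.1.1 *ᵥ x) = x := by
    intro A e he hA x
    rw [hA, hA]
    simp only [form_add_left, form_neg_left, form_smul_left, he]
    ext i
    simp only [Pi.add_apply, Pi.neg_apply, Pi.smul_apply, smul_eq_mul]
    ring
  have uni : ∀ (A : U21) (x y : Fin 3 → ℂ),
      form (-1) (A.1.1 *ᵥ x) (A.1.1 *ᵥ y) = form (-1) x y := by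
    intro A x y
    have := A.2 x y
    rwa [herm_eq, herm_eq] at this
  set e' : Fin 3 → ℂ := -e2 + (2 * form (-1) e2 e1) • e1 with he'
  have hAe : A1.1.1 *ᵥ e2 = e' := hA1 e2
  have hee' : form (-1) e' e' = 1 := by rw [← hAe, uni, h2]
  have hconj : ∀ x, A1.1.1 *ᵥ (A2.1.1 *ᵥ (A1.1.1 *ᵥ x)) = -x + (2 * form (-1) x e') • e' := by
    intro x
    rw [hA2, mulVec_add, mulVec_neg, inv A1 e1 h1 hA1, mulVec_smul, hAe]
    have : form (-1) (A1.1.1 *ᵥ x) e2 = form (-1) x e' := by
      rw [← uni A1, inv A1 e1 h1 hA1, hAe]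
    rw [this]
  -- the main equation
  have hmain : -v + (2 * form (-1) v e') • e' = c • (-v + (2 * form (-1) v e0) • e0) := by
    rw [← hconj, ← hA0, ← mulVec_smul, ← hc]
    simp only [Subgroup.coe_mul, Units.val_mul, ← mulVec_mulVec]
    rw [inv A0 e0 h0 hA0]
  set N : ℝ := (form (-1) v v).re with hN
  have hNc : form (-1) v v = N := by
    apply Complex.ext
    · simp [hN]
    · simp [form_self_im]
  have hcn : ‖c‖ = 1 := by
    have h3 := uni (A0 * A1 * A2 * A1) v v
    rw [hc, form_smul_left, form_smul_right, hNc] at h3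
    have hNne : (N : ℂ) ≠ 0 := by exact_mod_cast hv.ne
    have h4 : c * star c = 1 := by
      apply mul_right_cancel₀ hNne
      linear_combination h3
    have h5 : ‖c‖ * ‖c‖ = 1 := by
      have := congrArg (fun z : ℂ => ‖z‖) h4
      simpa using this
    nlinarith [norm_nonneg c]
  set a : ℂ := form (-1) v e' with ha
  set b : ℂ := form (-1) v e0 with hb
  have hpa : a * star a = (normSq a : ℂ) := by rw [Complex.star_def, Complex.mul_conj]
  have hpb : b * star b = (normSq b : ℂ) := by rw [Complex.star_def, Complex.mul_conj]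
  have heq : ((-N + 2 * normSq a : ℝ) : ℂ) = c * ((-N + 2 * normSq b : ℝ) : ℂ) := by
    have h3 := congrArg (fun x => form (-1) x v) hmain
    simp only [form_add_left, form_neg_left, form_smul_left, hNc] at h3
    have h4 : form (-1) e' v = star a := by rw [ha, star_form]
    have h5 : form (-1) e0 v = star b := by rw [hb, star_form]
    rw [h4, h5] at h3
    push_cast
    rw [← hpa, ← hpb]
    linear_combination h3
  have hc1 : c = 1 := by
    have p1 : 0 < -N + 2 * normSq a := by have := normSq_nonneg a; linarith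
    have p2 : 0 < -N + 2 * normSq b := by have := normSq_nonneg b; linarith
    have h3 := congrArg (fun z : ℂ => ‖z‖) heq
    simp only [norm_mul, hcn, one_mul, Complex.norm_real, Real.norm_eq_abs, abs_of_pos p1,
      abs_of_pos p2] at h3
    rw [h3] at heq
    have hne : ((-N + 2 * normSq b : ℝ) : ℂ) ≠ 0 := by exact_mod_cast p2.ne'
    have := mul_right_cancel₀ hne (show (1 : ℂ) * ((-N + 2 * normSq b : ℝ) : ℂ) =
      c * ((-N + 2 * normSq b : ℝ) : ℂ) by rw [one_mul]; exact heq)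
    exact this.symm
  rw [hc1, one_smul] at hmain
  have hab : a • e' = b • e0 := by
    ext i
    have := congrFun hmain i
    simp only [Pi.add_apply, Pi.neg_apply, Pi.smul_apply, smul_eq_mul] at this ⊢
    linear_combination this / 2
  set p : Fin 3 → ℂ := v - b • e0 with hp
  have hp' : p = v - a • e' := by rw [hp, hab]
  have hpneg : (form (-1) p p).re < 0 := by
    have h3 : form (-1) p p = ((N - normSq b : ℝ) : ℂ) := by
      rw [hp]
      simp only [form_sub_left, form_sub_right, form_smul_left, form_smul_right, hNc, h0]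
      have h5 : form (-1) e0 v = star b := by rw [hb, star_form]
      rw [h5, ← hb]
      push_cast
      rw [← hpb]
      ring
    rw [h3, Complex.ofReal_re]
    have := normSq_nonneg b
    linarith
  have e0p : form (-1) e0 p = 0 := by
    rw [hp, form_sub_right, form_smul_right, h0, hb, star_form]
    ring
  have e'p : form (-1) e' p = 0 := by
    rw [hp', form_sub_right, form_smul_right, hee', ha, star_form]
    ring
  have hz := orth_neg (p := p) (z := e0 - (form (-1) e0 e') • e') hpneg (by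
    rw [form_sub_left, form_smul_left, e0p, e'p]; ring)
  have hzz : form (-1) (e0 - (form (-1) e0 e') • e') (e0 - (form (-1) e0 e') • e') =
      ((1 - normSq (form (-1) e0 e') : ℝ) : ℂ) := by
    simp only [form_sub_left, form_sub_right, form_smul_left, form_smul_right, h0, hee']
    have h5 : form (-1) e' e0 = star (form (-1) e0 e') := by rw [star_form]
    rw [h5]
    push_cast
    rw [← Complex.mul_conj, ← Complex.star_def]
    ring
  rw [hzz, Complex.ofReal_re] at hz
  linarith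

/-- `cos (π / 14)` -/
noncomputable def cc : ℝ := Real.cos (Real.pi / 14)

theorem cc_pos : 0 < cc := by
  apply Real.cos_pos_of_mem_Ioo
  constructor <;> linarith [Real.pi_pos]

theorem cc_sq : cc ^ 2 = (2 + sv 0) / 4 := by
  have h := Real.cos_sq (Real.pi / 14)
  have h2 : 2 * (Real.pi / 14) = Real.pi / 7 := by ring
  rw [h2] at h
  show Real.cos (Real.pi / 14) ^ 2 = (2 + 2 * Real.cos (Real.pi / 7)) / 4
  rw [h]; ring

/-- the angular invariant -/
noncomputable def tstar : ℝ := Complex.arg (-(3 + om))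

theorem tstar_mem : tstar ∈ Set.Icc 0 Real.pi := by
  refine ⟨?_, Complex.arg_le_pi _⟩
  rw [tstar, Complex.arg_nonneg_iff]
  simp [om]
  positivity

theorem ve_norm (k j : Fin 3) (h : k ≠ j) : ‖form (-1) (ve 0 k) (ve 0 j)‖ = cc := by
  have h1 : 2 * form (-1) (ve 0 k) (ve 0 j) = R6.ev (sv 0) om (bm k j) := by
    have := ve_form 0 k j
    rwa [es0] at this
  have h2 := ev_bm_norm 0 k j h
  rw [← h1, mul_div_cancel_left₀ _ (two_ne_zero), ← cc_sq, Complex.normSq_eq_norm_sq] at h2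
  exact (pow_left_inj₀ (norm_nonneg _) cc_pos.le two_ne_zero).mp h2

theorem ve_triple : form (-1) (ve 0 0) (ve 0 1) * form (-1) (ve 0 1) (ve 0 2) *
    form (-1) (ve 0 2) (ve 0 0) = ((1 + sv 0 : ℝ) : ℂ) * (3 + om) / 8 := by
  have h1 : ∀ k j, 2 * form (-1) (ve 0 k) (ve 0 j) = R6.ev (sv 0) om (bm k j) := by
    intro k j
    have := ve_form 0 k j
    rwa [es0] at this
  have key : bm 0 1 * bm 1 2 * bm 2 0 = ⟨3, 3, 0, 1, 1, 0⟩ := by decide +kernel
  have : R6.ev (sv 0) om (bm 0 1) * R6.ev (sv 0) om (bm 1 2) * R6.ev (sv 0) om (bm 2 0) =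
      (1 + sv 0) * (3 + om) := by
    rw [← R6.ev_mul (sv_cubicC 0) om_sq, ← R6.ev_mul (sv_cubicC 0) om_sq, key]
    simp [R6.ev]
    ring
  rw [← h1, ← h1, ← h1] at this
  push_cast
  linear_combination this / 8

theorem ve_triple' : form (-1) (ve 0 0) (ve 0 1) * form (-1) (ve 0 1) (ve 0 2) *
    form (-1) (ve 0 2) (ve 0 0) = -((cc * cc * cc : ℝ) : ℂ) * exp (tstar * I) := by
  have hn : ‖form (-1) (ve 0 0) (ve 0 1) * form (-1) (ve 0 1) (ve 0 2) *
      form (-1) (ve 0 2) (ve 0 0)‖ = cc * cc * cc := by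
    rw [norm_mul, norm_mul, ve_norm 0 1 (by decide), ve_norm 1 2 (by decide),
      ve_norm 2 0 (by decide)]
  have hp : (0 : ℝ) < (1 + sv 0) / 8 := by linarith [sv0_gt]
  have harg : Complex.arg (-(form (-1) (ve 0 0) (ve 0 1) * form (-1) (ve 0 1) (ve 0 2) *
    form (-1) (ve 0 2) (ve 0 0))) = tstar := by
    rw [ve_triple, tstar]
    have : -(((1 + sv 0 : ℝ) : ℂ) * (3 + om) / 8) = (((1 + sv 0) / 8 : ℝ) : ℂ) * (-(3 + om)) := by
      push_cast; ring
    rw [this, Complex.arg_real_mul _ hp]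
  have h := Complex.norm_mul_exp_arg_mul_I (-(form (-1) (ve 0 0) (ve 0 1) *
    form (-1) (ve 0 1) (ve 0 2) * form (-1) (ve 0 2) (ve 0 0)))
  rw [harg, norm_neg, hn] at h
  rw [neg_mul, h, neg_neg]

theorem cos_tstar : cc * cc * cc * Real.cos tstar = -(5 / 16 * (1 + sv 0)) := by
  have h := ve_triple'
  rw [ve_triple] at h
  have h2 := congrArg Complex.re h
  rw [Complex.exp_mul_I] at h2
  simp [om, ← Complex.ofReal_cos, ← Complex.ofReal_sin] at h2
  linarith

theorem triangle : IsTriangleGroup M14 tstar rho := by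
  refine ⟨ve 0, ve_indep 0, ?_, ?_, ?_⟩
  · intro i
    refine ⟨by rw [herm_eq]; exact ve0_self i, rr i, (rho_simple i).symm, fun x => ?_⟩
    rw [herm_eq]
    exact rmat_mulVec (-1) (ve 0 i) x
  · intro i j hij
    rw [herm_eq, ve_norm i j hij, M14_ne i j hij]
    norm_num [cc]
  · rw [herm_eq, herm_eq, herm_eq, ve_triple', M14_ne 0 1 (by decide), M14_ne 1 2 (by decide),
      M14_ne 2 0 (by decide)]
    norm_num [cc]

theorem typeB : TypeB M14 := by
  rintro ⟨t₀, ⟨h0, hπ⟩, ⟨ρ, ⟨e, _, hrefl, hnorm, htr⟩, A, hA, v, hv, c, hc⟩, hB⟩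
  by_cases hle : tstar ≤ t₀
  · exact hB tstar ⟨tstar_mem.1, hle⟩ rho triangle elliptic_WB
  · push Not at hle
    obtain ⟨h00, A0, hA0, hA0'⟩ := hrefl 0
    obtain ⟨h11, A1, hA1, hA1'⟩ := hrefl 1
    obtain ⟨h22, A2, hA2, hA2'⟩ := hrefl 2
    simp only [herm_eq] at h00 h11 h22 hA0' hA1' hA2' hnorm htr hv
    -- the eigenvector for the product of the lifts
    have hprod : ((A0 * A1 * A2 * A1 : U21) : PU21) = (A : PU21) := by
      rw [hA]
      simp only [WA, map_mul, QuotientGroup.mk_mul, hA0, hA1, hA2]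
    obtain ⟨d, hd, hd'⟩ := eq_smul hprod.symm
    have hc' : (A0 * A1 * A2 * A1).1.1 *ᵥ v = (d * c) • v := by
      rw [hd', smul_mulVec, hc, smul_smul]
    have hle1 := refl_nonexp h00 h11 h22 hA0' hA1' hA2' hv _ hc'
    -- compute
    have hcos : Real.cos tstar < Real.cos t₀ := cos_lt h0 hle tstar_mem.2
    have n01 : ‖form (-1) (e 0) (e 1)‖ = cc := by
      rw [hnorm 0 1 (by decide), M14_ne 0 1 (by decide)]; norm_num [cc]
    have n12 : ‖form (-1) (e 1) (e 2)‖ = cc := by
      rw [hnorm 1 2 (by decide), M14_ne 1 2 (by decide)]; norm_num [cc]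
    have n20 : ‖form (-1) (e 2) (e 0)‖ = cc := by
      rw [hnorm 2 0 (by decide), M14_ne 2 0 (by decide)]; norm_num [cc]
    have htr2 : form (-1) (e 0) (e 1) * form (-1) (e 1) (e 2) * form (-1) (e 2) (e 0) =
        -((cc * cc * cc : ℝ) : ℂ) * exp (t₀ * I) := by
      rw [htr, M14_ne 0 1 (by decide), M14_ne 1 2 (by decide), M14_ne 2 0 (by decide)]
      norm_num [cc]
    set x := form (-1) (e 0) (e 1) with hx
    set y := form (-1) (e 1) (e 2) with hy
    set z := form (-1) (e 2) (e 0) with hz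
    have hval : form (-1) (e 0) (-(e 2) + (2 * form (-1) (e 2) (e 1)) • (e 1)) =
        -star z + 2 * y * x := by
      rw [form_add_right, form_neg_right, form_smul_right, ← hx]
      have h3 : form (-1) (e 0) (e 2) = star z := by rw [hz, star_form]
      have h4 : star (2 * form (-1) (e 2) (e 1)) = 2 * y := by
        rw [star_mul', star_form]; simp [hy]
      rw [h3, h4]
    rw [hval] at hle1
    have hns : normSq (-star z + 2 * y * x) = cc ^ 2 + 4 * cc ^ 4 + 4 * (cc * cc * cc) *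
        Real.cos t₀ := by
      have e1 : normSq (-star z + 2 * y * x) = ‖z‖ ^ 2 + 4 * (‖y‖ ^ 2 * ‖x‖ ^ 2) -
          4 * (x * y * z).re := by
        rw [Complex.normSq_apply]
        rw [← Complex.normSq_eq_norm_sq, ← Complex.normSq_eq_norm_sq, ← Complex.normSq_eq_norm_sq]
        rw [Complex.normSq_apply, Complex.normSq_apply, Complex.normSq_apply]
        simp [Complex.add_re, Complex.add_im, Complex.mul_re, Complex.mul_im]
        ring
      rw [e1, n01, n12, n20, htr2]
      have e2 : (-((cc * cc * cc : ℝ) : ℂ) * exp (t₀ * I)).re = -(cc * cc * cc) * Real.cos t₀ := by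
        rw [Complex.exp_mul_I, neg_mul, Complex.neg_re, Complex.re_ofReal_mul]
        simp [← Complex.ofReal_cos, ← Complex.ofReal_sin]
      rw [e2]
      ring
    rw [hns] at hle1
    have hc3 : 0 < cc * cc * cc := by have := cc_pos; positivity
    have h7 : cc * cc * cc * Real.cos tstar < cc * cc * cc * Real.cos t₀ :=
      mul_lt_mul_of_pos_left hcos hc3
    rw [cos_tstar] at h7
    have h8 : cc ^ 4 = ((2 + sv 0) / 4) ^ 2 := by rw [← cc_sq]; ring
    rw [h8, cc_sq] at hle1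
    nlinarith [sv0_sq]

end Pool.Agent.X186.TG
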